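import Pool.Agent.H447R3.NumA

/-!
# Two algebras of operators which agree in one negative degree
-/

set_option autoImplicit false

open Finset

namespace Pool.Agent.Q82.OC

open Pool.Agent.H914 Pool.Agent.H447

variable {K : Type*} [Field K] {V : Type*} [AddCommGroup V] [Module K V]
variable {gr : ℕ → Submodule K V} {n : ℕ} {L : Module.End K V}

section Inv

variable {c : ℕ} {t : Module.End K V}

lemma inv_kill (ht : IsInv gr n L c t) {i : ℕ} (hi : i ≠ n + c) {a : V} (ha : a ∈ gr i) :
    t a = 0 := ht.2 i hi a ha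

lemma isInv_mem (hHL : HardLef gr n L) (hc : c ≤ n) (ht : IsInv gr n L c t) {b : V}
    (hb : b ∈ gr (n + c)) : t b ∈ gr (n - c) ∧ (L ^ c) (t b) = b := by
  obtain ⟨a, ha, rfl⟩ := surj_pow hHL hc hb
  rw [ht.1 a ha]
  exact ⟨ha, rfl⟩

/-- `θ L ^ c θ = θ`. -/
lemma inv_inv (h : DirectSum.IsInternal gr) (hHL : HardLef gr n L) (hc : c ≤ n)
    (ht : IsInv gr n L c t) : t * L ^ c * t = t := by
  apply gr_ext h
  intro i a ha
  rw [Module.End.mul_apply, Module.End.mul_apply]
  by_cases hi : i = n + c
  · subst hi
    obtain ⟨b, hb, rfl⟩ := surj_pow hHL hc ha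
    rw [ht.1 b hb, ht.1 b hb]
  · rw [inv_kill ht hi ha, map_zero, map_zero]

end Inv

section Two

set_option linter.unusedSectionVars false

variable [CharZero K] {R T : ℤ → Module.End K V → Prop}

/-- The algebra `T` contains the algebra `R` and the inverses of the Lefschetz isomorphisms. -/
structure Pair (gr : ℕ → Submodule K V) (n : ℕ) (L : Module.End K V)
    (R T : ℤ → Module.End K V → Prop) : Prop where
  hR : OpAlg gr R
  hT : OpAlg gr T
  le : ∀ {s u}, R s u → T s u
  int : DirectSum.IsInternal gr
  bd : ∀ i, 2 * n + 1 ≤ i → gr i = ⊥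
  L_mem : R 1 L
  HL : HardLef gr n L
  inv : ∀ c ≤ n, ∀ t, IsInv gr n L c t → T (-c) t

variable (P : Pair gr n L R T)

include P

lemma Pair.L_hom : IsHom gr 2 L := by simpa using P.hR.hom P.L_mem

/-- The inverses of the Lefschetz isomorphisms are in the small algebra. -/
theorem Pair.inv_mem {r : ℕ} (hr : 1 ≤ r) (hN : ∀ u, T (-r) u → R (-r) u) :
    ∀ c, r ≤ c → c ≤ n → ∀ t, IsInv gr n L c t → R (-c) t := by
  intro c
  induction c using Nat.strong_induction_on with
  | _ c ih =>
    intro hrc hcn t ht
    have hLh := P.L_hom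
    have hTL : ∀ m : ℕ, T m (L ^ m) := fun m =>
      P.hT.cast (P.hT.pow (P.le P.L_mem) m) (by ring)
    have hRL : ∀ m : ℕ, R m (L ^ m) := fun m => P.hR.cast (P.hR.pow P.L_mem m) (by ring)
    have hu : R (-r) (t * L ^ (c - r)) :=
      hN _ (P.hT.cast (P.hT.mul (P.inv c hcn t ht) (hTL (c - r))) (by omega))
    have hu' : R (-r) (L ^ (c - r) * t) :=
      hN _ (P.hT.cast (P.hT.mul (hTL (c - r)) (P.inv c hcn t ht)) (by omega))
    rcases le_or_gt c (2 * r) with h1 | h1
    · have h2 : (t * L ^ (c - r)) * L ^ (2 * r - c) * (L ^ (c - r) * t) = t := by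
        have h3 : (t * L ^ (c - r)) * L ^ (2 * r - c) * (L ^ (c - r) * t) =
            t * (L ^ (c - r) * L ^ (2 * r - c) * L ^ (c - r)) * t := by
          simp only [mul_assoc]
        rw [h3, ← pow_add, ← pow_add, show c - r + (2 * r - c) + (c - r) = c by omega]
        exact inv_inv P.int P.HL hcn ht
      rw [← h2]
      exact P.hR.cast (P.hR.mul (P.hR.mul hu (hRL _)) hu') (by omega)
    · rcases le_or_gt (3 * r) c with h3 | h3
      · obtain ⟨t', ht'⟩ := exists_isInv P.int hLh P.HL (c := c - 2 * r) (by omega)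
        have hR' := ih (c - 2 * r) (by omega) (by omega) (by omega) t' ht'
        have h2 : (t * L ^ (c - r)) * t' * (L ^ (c - r) * t) = t := by
          apply gr_ext P.int
          intro i a ha
          simp only [Module.End.mul_apply]
          by_cases hi : i = n + c
          · subst hi
            obtain ⟨y, hy, rfl⟩ := surj_pow P.HL hcn ha
            have hy1 := pow_L_mem hLh hy r
            rw [show n - c + 2 * r = n - (c - 2 * r) by omega] at hy1
            have hpp : ∀ (a b : ℕ) (x : V), (L ^ a) ((L ^ b) x) = (L ^ (a + b)) x := by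
              intro a b x
              rw [pow_add, Module.End.mul_apply]
            have e1 : (L ^ (c - r)) y = (L ^ (c - 2 * r)) ((L ^ r) y) := by
              rw [hpp, show c - 2 * r + r = c - r by omega]
            rw [ht.1 y hy, e1, ht'.1 _ hy1, hpp, show c - r + r = c by omega, ht.1 y hy]
          · rw [inv_kill ht hi ha, map_zero, map_zero, map_zero, map_zero]
        rw [← h2]
        exact P.hR.cast (P.hR.mul (P.hR.mul hu hR') hu') (by omega)
      · obtain ⟨t', ht'⟩ := exists_isInv P.int hLh P.HL (c := 4 * r - c) (by omega)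
        have hu'' : R (-r) (t' * L ^ (3 * r - c)) :=
          hN _ (P.hT.cast (P.hT.mul (P.inv (4 * r - c) (by omega) t' ht') (hTL (3 * r - c)))
            (by omega))
        have h2 : (t * L ^ (c - r)) * (L ^ (3 * r - c) * (t' * L ^ (3 * r - c))) *
            (L ^ (c - r) * t) = t := by
          apply gr_ext P.int
          intro i a ha
          simp only [Module.End.mul_apply]
          by_cases hi : i = n + c
          · subst hi
            obtain ⟨y, hy, rfl⟩ := surj_pow P.HL hcn ha
            have hy1 := pow_L_mem hLh hy (c - 2 * r)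
            rw [show n - c + 2 * (c - 2 * r) = n - (4 * r - c) by omega] at hy1
            have hpp : ∀ (a b : ℕ) (x : V), (L ^ a) ((L ^ b) x) = (L ^ (a + b)) x := by
              intro a b x
              rw [pow_add, Module.End.mul_apply]
            have e1 : (L ^ (3 * r - c)) ((L ^ (c - r)) y) =
                (L ^ (4 * r - c)) ((L ^ (c - 2 * r)) y) := by
              rw [hpp, hpp, show 3 * r - c + (c - r) = 4 * r - c + (c - 2 * r) by omega]
            rw [ht.1 y hy, e1, ht'.1 _ hy1, hpp, hpp,
              show c - r + (3 * r - c) + (c - 2 * r) = c by omega, ht.1 y hy]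
          · rw [inv_kill ht hi ha]
            simp only [map_zero]
        rw [← h2]
        exact P.hR.cast (P.hR.mul (P.hR.mul hu (P.hR.mul (hRL _) hu'')) hu') (by omega)

lemma Pair.proj_low {c : ℕ} (hcn : c ≤ n) {t : Module.End K V} (ht : IsInv gr n L c t) :
    t * L ^ c = proj P.int (n - c) := by
  have hLh := P.L_hom
  apply gr_ext P.int
  intro j a ha
  rw [Module.End.mul_apply]
  by_cases hj : j = n - c
  · subst hj
    rw [ht.1 a ha, proj_same _ ha]
  · rw [proj_ne _ ha hj, ht.2 (j + 2 * c) (by omega) _ (pow_L_mem hLh ha c)]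

lemma Pair.proj_high {c : ℕ} (hcn : c ≤ n) {t : Module.End K V} (ht : IsInv gr n L c t) :
    L ^ c * t = proj P.int (n + c) := by
  apply gr_ext P.int
  intro j b hb
  rw [Module.End.mul_apply]
  by_cases hj : j = n + c
  · subst hj
    obtain ⟨a, ha, rfl⟩ := surj_pow P.HL hcn hb
    rw [ht.1 a ha, proj_same _ hb]
  · rw [proj_ne _ hb hj, ht.2 j hj b hb, map_zero]

/-- **The lower range.** -/
theorem Pair.low {r : ℕ} (hr : 1 ≤ r) (hN : ∀ u, T (-r) u → R (-r) u) {s : ℕ} (hrs : r ≤ s)
    {u : Module.End K V} (hu : T (-s) u) : R (-s) u := by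
  have hLh := P.L_hom
  have hTL : ∀ m : ℕ, T m (L ^ m) := fun m => P.hT.cast (P.hT.pow (P.le P.L_mem) m) (by ring)
  have hRL : ∀ m : ℕ, R m (L ^ m) := fun m => P.hR.cast (P.hR.pow P.L_mem m) (by ring)
  have huh := P.hT.hom hu
  have hmem : ∀ j t : ℕ, j = t + 2 * s → ∀ x ∈ gr j, u x ∈ gr t := by
    intro j t hjt x hx
    have h1 := huh j x (by rwa [grZ_natCast])
    rwa [show (j : ℤ) + 2 * (-(s : ℤ)) = (t : ℤ) by omega, grZ_natCast] at h1
  have hmem0 : ∀ j : ℕ, j < 2 * s → ∀ x ∈ gr j, u x = 0 := by
    intro j hj x hx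
    have h1 := huh j x (by rwa [grZ_natCast])
    rw [grZ_of_neg (by omega)] at h1
    exact (Submodule.mem_bot _).1 h1
  have hproj : ∀ c, ∃ t, c ≤ n → IsInv gr n L c t := by
    intro c
    by_cases hc : c ≤ n
    · obtain ⟨t, ht⟩ := exists_isInv P.int hLh P.HL hc
      exact ⟨t, fun _ => ht⟩
    · exact ⟨0, fun h => absurd h hc⟩
  choose t ht using hproj
  have htR : ∀ c, r ≤ c → c ≤ n → R (-c) (t c) := fun c h1 h2 =>
    P.inv_mem hr hN c h1 h2 _ (ht c h2)
  have h1 : R (-r) (u * L ^ (s - r)) :=
    hN _ (P.hT.cast (P.hT.mul hu (hTL (s - r))) (by omega))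
  have h2 : R (-r) (L ^ (s - r) * u) :=
    hN _ (P.hT.cast (P.hT.mul (hTL (s - r)) hu) (by omega))
  have key : u = ∑ c ∈ Icc s n, u * (L ^ c * t c) + ∑ c ∈ Icc (s + 1) n, (t c * L ^ c) * u := by
    apply gr_ext P.int
    intro j x hx
    rw [LinearMap.add_apply, LinearMap.sum_apply, LinearMap.sum_apply]
    by_cases hj : n + s ≤ j
    · by_cases hj2 : j ≤ 2 * n
      · obtain ⟨c, rfl⟩ : ∃ c, j = n + c := ⟨j - n, by omega⟩
        rw [sum_eq_single c, sum_eq_zero, add_zero, Module.End.mul_apply,
          P.proj_high (by omega) (ht c (by omega)), proj_same _ hx]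
        · intro c' hc'
          rw [mem_Icc] at hc'
          rw [Module.End.mul_apply, P.proj_low (by omega) (ht c' (by omega))]
          exact proj_ne _ (hmem (n + c) (n + c - 2 * s) (by omega) x hx) (by omega)
        · intro c' hc' hne
          rw [mem_Icc] at hc'
          rw [Module.End.mul_apply, P.proj_high (by omega) (ht c' (by omega)),
            proj_ne _ hx (by omega), map_zero]
        · intro hc
          exact absurd (mem_Icc.2 ⟨by omega, by omega⟩) hc
      · rw [P.bd j (by omega)] at hx
        rw [(Submodule.mem_bot _).1 hx]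
        simp
    · rw [sum_eq_zero (s := Icc s n), zero_add]
      · by_cases hj2 : j < 2 * s
        · rw [hmem0 j hj2 x hx, sum_eq_zero]
          intro c _
          rw [Module.End.mul_apply, hmem0 j hj2 x hx, map_zero]
        · have hux := hmem j (j - 2 * s) (by omega) x hx
          rw [sum_eq_single (n - (j - 2 * s)), Module.End.mul_apply,
            P.proj_low (by omega) (ht (n - (j - 2 * s)) (by omega)),
            show n - (n - (j - 2 * s)) = j - 2 * s by omega, proj_same _ hux]
          · intro c' hc' hne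
            rw [mem_Icc] at hc'
            rw [Module.End.mul_apply, P.proj_low (by omega) (ht c' (by omega)),
              proj_ne _ hux (by omega)]
          · intro hc
            exact absurd (mem_Icc.2 ⟨by omega, by omega⟩) hc
      · intro c hc
        rw [mem_Icc] at hc
        rw [Module.End.mul_apply, P.proj_high (by omega) (ht c (by omega)),
          proj_ne _ hx (by omega), map_zero]
  rw [key]
  refine P.hR.add (P.hR.sum fun c hc => ?_) (P.hR.sum fun c hc => ?_)
  · rw [mem_Icc] at hc
    have h3 : u * (L ^ c * t c) = (u * L ^ (s - r)) * (L ^ (c - (s - r)) * t c) := by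
      rw [mul_assoc u, ← mul_assoc (L ^ (s - r)), ← pow_add,
        show s - r + (c - (s - r)) = c by omega]
    rw [h3]
    exact P.hR.cast (P.hR.mul h1 (P.hR.mul (hRL _) (htR c (by omega) (by omega)))) (by omega)
  · rw [mem_Icc] at hc
    have h3 : (t c * L ^ c) * u = (t c * L ^ (c - (s - r))) * (L ^ (s - r) * u) := by
      rw [mul_assoc (t c) (L ^ (c - (s - r))), ← mul_assoc (L ^ (c - (s - r))), ← pow_add,
        show c - (s - r) + (s - r) = c by omega, mul_assoc]
    rw [h3]
    exact P.hR.cast (P.hR.mul (P.hR.mul (htR c (by omega) (by omega)) (hRL _)) h2) (by omega)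

/-- **The upper range.** -/
theorem Pair.high {r : ℕ} (hr : 1 ≤ r) (hN : ∀ u, T (-r) u → R (-r) u) {s : ℕ} (hrs : r ≤ s)
    {u : Module.End K V} (hu : T s u) : R s u := by
  have hLh := P.L_hom
  have hRL : ∀ m : ℕ, R m (L ^ m) := fun m => P.hR.cast (P.hR.pow P.L_mem m) (by ring)
  have huh := P.hT.hom hu
  have hmem : ∀ j : ℕ, ∀ x ∈ gr j, u x ∈ gr (j + 2 * s) := by
    intro j x hx
    have h1 := huh j x (by rwa [grZ_natCast])
    rwa [show (j : ℤ) + 2 * (s : ℤ) = ((j + 2 * s : ℕ) : ℤ) by omega, grZ_natCast] at h1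
  have hproj : ∀ c, ∃ t, c ≤ n → IsInv gr n L c t := by
    intro c
    by_cases hc : c ≤ n
    · obtain ⟨t, ht⟩ := exists_isInv P.int hLh P.HL hc
      exact ⟨t, fun _ => ht⟩
    · exact ⟨0, fun h => absurd h hc⟩
  choose t ht using hproj
  have htR : ∀ c, r ≤ c → c ≤ n → R (-c) (t c) := fun c h1 h2 =>
    P.inv_mem hr hN c h1 h2 _ (ht c h2)
  have htT : ∀ c, c ≤ n → T (-c) (t c) := fun c h2 => P.inv c h2 _ (ht c h2)
  -- the products with the inverses
  have hA : ∀ a, s ≤ a → a ≤ n → R ((s : ℤ) - a) (u * t a) := by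
    intro a ha han
    have h1 : T ((s : ℤ) - a) (u * t a) := P.hT.cast (P.hT.mul hu (htT a han)) (by ring)
    rcases le_or_gt (2 * s) a with h2 | h2
    · rw [show (s : ℤ) - a = -((a - s : ℕ) : ℤ) by omega] at h1 ⊢
      exact P.low hr hN (by omega) h1
    · have h3 : u * t a = L ^ (2 * s - a) * (t (2 * s - a) * (u * t a)) := by
        rw [← mul_assoc (L ^ _), P.proj_high (by omega) (ht (2 * s - a) (by omega))]
        apply gr_ext P.int
        intro j x hx
        rw [Module.End.mul_apply, Module.End.mul_apply, Module.End.mul_apply]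
        by_cases hj : j = n + a
        · subst hj
          have h4 := hmem _ _ (isInv_mem P.HL han (ht a han) hx).1
          rw [show n - a + 2 * s = n + (2 * s - a) by omega] at h4
          rw [proj_same _ h4]
        · rw [inv_kill (ht a han) hj hx, map_zero, map_zero]
      rw [h3]
      have h4 : T (-s) (t (2 * s - a) * (u * t a)) :=
        P.hT.cast (P.hT.mul (htT (2 * s - a) (by omega)) h1) (by omega)
      exact P.hR.cast (P.hR.mul (hRL _) (P.low hr hN hrs h4)) (by omega)
  have hB : ∀ a, s + 1 ≤ a → a ≤ n → R ((s : ℤ) - a) (t a * u) := by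
    intro a ha han
    have h1 : T ((s : ℤ) - a) (t a * u) := P.hT.cast (P.hT.mul (htT a han) hu) (by ring)
    rcases le_or_gt (2 * s) a with h2 | h2
    · rw [show (s : ℤ) - a = -((a - s : ℕ) : ℤ) by omega] at h1 ⊢
      exact P.low hr hN (by omega) h1
    · have h3 : t a * u = ((t a * u) * t (2 * s - a)) * L ^ (2 * s - a) := by
        rw [mul_assoc (t a * u), P.proj_low (by omega) (ht (2 * s - a) (by omega))]
        apply gr_ext P.int
        intro j x hx
        rw [Module.End.mul_apply, Module.End.mul_apply, Module.End.mul_apply]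
        by_cases hj : j = n - (2 * s - a)
        · subst hj
          rw [proj_same _ hx]
        · rw [proj_ne _ hx hj, map_zero, map_zero,
            inv_kill (ht a han) (i := j + 2 * s) (by omega) (hmem j x hx)]
      rw [h3]
      have h4 : T (-s) ((t a * u) * t (2 * s - a)) :=
        P.hT.cast (P.hT.mul h1 (htT (2 * s - a) (by omega))) (by omega)
      exact P.hR.cast (P.hR.mul (P.low hr hN hrs h4) (hRL _)) (by omega)
  have key : u = ∑ a ∈ Icc s n, (u * t a) * L ^ a + ∑ a ∈ Icc (s + 1) n, L ^ a * (t a * u) := by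
    apply gr_ext P.int
    intro j x hx
    rw [LinearMap.add_apply, LinearMap.sum_apply, LinearMap.sum_apply]
    simp only [mul_assoc]
    by_cases hj : j + s ≤ n
    · rw [sum_eq_single (n - j), sum_eq_zero, add_zero, Module.End.mul_apply,
        P.proj_low (by omega) (ht (n - j) (by omega)), show n - (n - j) = j by omega,
        proj_same _ hx]
      · intro c' hc'
        rw [mem_Icc] at hc'
        rw [← mul_assoc, Module.End.mul_apply, P.proj_high (by omega) (ht c' (by omega))]
        exact proj_ne _ (hmem j x hx) (by omega)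
      · intro c' hc' hne
        rw [mem_Icc] at hc'
        rw [Module.End.mul_apply, P.proj_low (by omega) (ht c' (by omega)),
          proj_ne _ hx (by omega), map_zero]
      · intro hc
        exact absurd (mem_Icc.2 ⟨by omega, by omega⟩) hc
    · rw [sum_eq_zero (s := Icc s n), zero_add]
      · by_cases hj2 : 2 * n < j + 2 * s
        · have h0 : u x = 0 := by
            have := hmem j x hx
            rw [P.bd _ (by omega)] at this
            exact (Submodule.mem_bot _).1 this
          rw [h0, sum_eq_zero]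
          intro c _
          rw [← mul_assoc, Module.End.mul_apply, h0, map_zero]
        · rw [sum_eq_single (j + 2 * s - n), ← mul_assoc, Module.End.mul_apply,
            P.proj_high (by omega) (ht (j + 2 * s - n) (by omega)),
            show n + (j + 2 * s - n) = j + 2 * s by omega, proj_same _ (hmem j x hx)]
          · intro c' hc' hne
            rw [mem_Icc] at hc'
            rw [← mul_assoc, Module.End.mul_apply, P.proj_high (by omega) (ht c' (by omega)),
              proj_ne _ (hmem j x hx) (by omega)]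
          · intro hc
            exact absurd (mem_Icc.2 ⟨by omega, by omega⟩) hc
      · intro c hc
        rw [mem_Icc] at hc
        rw [Module.End.mul_apply, P.proj_low (by omega) (ht c (by omega)),
          proj_ne _ hx (by omega), map_zero]
  rw [key]
  refine P.hR.add (P.hR.sum fun a ha => ?_) (P.hR.sum fun a ha => ?_)
  · rw [mem_Icc] at ha
    exact P.hR.cast (P.hR.mul (hA a ha.1 ha.2) (hRL a)) (by ring)
  · rw [mem_Icc] at ha
    exact P.hR.cast (P.hR.mul (hRL a) (hB a ha.1 ha.2)) (by ring)

end Two

end Pool.Agent.Q82.OC
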