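import Pool.Agent.H447R3.NumDefs
import Pool.Agent.W534.TateDefs

/-!
# Classes on the square of a variety: definitions
-/

set_option autoImplicit false

open CategoryTheory AlgebraicGeometry

universe u v

namespace Pool.Agent.Q82.OC

open Pool.Agent.H914 Pool.Agent.H447 Pool.Agent.W534 VarClass Obj WeilCohomology

variable {k : Type u} [Field k] {𝒱 : VarClass k} {ops : CycleOps 𝒱}

/-- The class `a` has degree `i`. -/
def HasDeg (W : WeilCohomology.{u, v} ops) (X : 𝒱.Obj) (i : ℕ) (a : W.H X) : Prop :=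
  a ∈ W.gr X i

/-- The class `c` is a `K`-linear combination of classes of cycles of codimension `q`. -/
def IsComb (W : WeilCohomology.{u, v} ops) (Z : 𝒱.Obj) (q : ℕ) (c : W.H Z) : Prop :=
  c ∈ spanCycles W Z q

/-- The class `c` on `X × X` acts as zero on `H^i(X)` for all `i ≠ j`. -/
def ActsOnlyOn (W : WeilCohomology.{u, v} ops) (X : 𝒱.Obj) (j : ℕ) (c : W.H (X.prod X)) : Prop :=
  ∀ i, i ≠ j → ∀ a : W.H X, HasDeg W X i a → actC W c a = 0

/-- `|n - j| + |n - j'| ≥ 2 (n - d)`. -/
def Far (n d j j' : ℕ) : Prop :=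
  2 * ((n : ℤ) - d) ≤ |(n : ℤ) - j| + |(n : ℤ) - j'|

/-- All classes on `X × X` (of any codimension `q`) with the property `T q`, of the Kunneth types
`(2 n - j, j')` with `|n - j| + |n - j'| ≥ 2 (n - d)`, `n = dim X`, are linear combinations of
classes of cycles. -/
def FarTypes (W : WeilCohomology.{u, v} ops) (X : 𝒱.Obj) (d : ℕ)
    (T : ℕ → W.H (X.prod X) → Prop) : Prop :=
  ∀ (q : ℕ) (c : W.H (X.prod X)) (j j' : ℕ), T q c → j + 2 * q = j' + 2 * X.dim →
    ActsOnlyOn W X j c → Far X.dim d j j' → IsComb W (X.prod X) q c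

/-- The class on `X × X` which induces the inverse of `D^(n-i) : H^i(X) → H^(2n-i)(X)` is a
`K`-linear combination of classes of cycles of codimension `i`. -/
def InverseIsComb (W : WeilCohomology.{u, v} ops) (X : 𝒱.Obj) (D : X.Cycles) (i : ℕ) : Prop :=
  ∀ τ, IsInverseClass W X D (X.dim - i) τ → IsComb W (X.prod X) i τ

/-- The inverse of `D^(n-i) : H^i(X) → H^(2n-i)(X)` is induced by a cycle of codimension `i` on
`X × X` with rational coefficients. -/
def InverseIsCycle (W : WeilCohomology.{u, v} ops) (X : 𝒱.Obj) (D : X.Cycles) (i : ℕ) : Prop :=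
  ∃ z, (X.prod X).IsCyc i z ∧ IsInverseClass W X D (X.dim - i) (W.cl _ z)

end Pool.Agent.Q82.OC
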