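import Pool.Agent.Q82.OC.Main
import Pool.Agent.Q82.DL.Self
import Pool.Agent.W534.PoleD

/-!
# The Tate conjecture in one codimension on the square of a variety over a finite field
-/

set_option autoImplicit false

open CategoryTheory AlgebraicGeometry Filter

universe u v

namespace Pool.Agent.Q82.OC

open Pool.Agent.H914 Pool.Agent.H447 Pool.Agent.W534 VarClass Obj WeilCohomology

/-- The sets of natural numbers which contain all positive multiples of some positive number. -/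
def divFilter : Filter ℕ where
  sets := {S | ∃ m, 0 < m ∧ ∀ t, 0 < t → m ∣ t → t ∈ S}
  univ_sets := ⟨1, one_pos, fun _ _ _ => trivial⟩
  sets_of_superset := by
    rintro S T ⟨m, hm, h⟩ hST
    exact ⟨m, hm, fun t h1 h2 => hST (h t h1 h2)⟩
  inter_sets := by
    rintro S T ⟨m, hm, h⟩ ⟨m', hm', h'⟩
    exact ⟨m * m', Nat.mul_pos hm hm', fun t h1 h2 =>
      ⟨h t h1 (dvd_trans (dvd_mul_right _ _) h2), h' t h1 (dvd_trans (dvd_mul_left _ _) h2)⟩⟩

lemma eventually_div {P : ℕ → Prop} :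
    (∀ᶠ t in divFilter, P t) ↔ ∃ m, 0 < m ∧ ∀ t, 0 < t → m ∣ t → P t := Iff.rfl

variable {k : Type u} [Field k] {𝒱 : VarClass k} {ops : CycleOps 𝒱}
  {W : WeilCohomology.{u, v} ops} {X : 𝒱.Obj} {D : X.Cycles} {p : ℕ} (Φ : FrobSystem W p)

lemma exists_common (X : 𝒱.Obj) : ∃ a b, 0 < a ∧ 0 < b ∧
    a * Φ.e (X.prod X) = b * Φ.e X ∧
    (∀ (t : ℕ) (x : W.H X), W.map (W534.iter (Φ.Fr (X.prod X)) (a * t)) (W.map (Obj.fst X X) x) =
      W.map (Obj.fst X X) (W.map (W534.iter (Φ.Fr X) (b * t)) x)) ∧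
    ∀ (t : ℕ) (x : W.H X), W.map (W534.iter (Φ.Fr (X.prod X)) (a * t)) (W.map (Obj.snd X X) x) =
      W.map (Obj.snd X X) (W.map (W534.iter (Φ.Fr X) (b * t)) x) := by
  obtain ⟨a₁, b₁, ha₁, hb₁, h1, h1'⟩ := frob_comm Φ (Obj.fst X X)
  obtain ⟨a₂, b₂, ha₂, hb₂, h2, h2'⟩ := frob_comm Φ (Obj.snd X X)
  have hab : b₂ * a₁ = b₁ * a₂ := by
    have he := Φ.e_pos X
    have he' := Φ.e_pos (X.prod X)
    apply Nat.eq_of_mul_eq_mul_right (Nat.mul_pos he he')
    calc b₂ * a₁ * (Φ.e X * Φ.e (X.prod X))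
        = (b₂ * Φ.e X) * (a₁ * Φ.e (X.prod X)) := by ring
      _ = (a₂ * Φ.e (X.prod X)) * (b₁ * Φ.e X) := by rw [h1, h2]
      _ = b₁ * a₂ * (Φ.e X * Φ.e (X.prod X)) := by ring
  refine ⟨a₁ * a₂, b₁ * a₂, Nat.mul_pos ha₁ ha₂, Nat.mul_pos hb₁ ha₂, ?_, fun t x => ?_,
    fun t x => ?_⟩
  · calc a₁ * a₂ * Φ.e (X.prod X) = a₂ * (a₁ * Φ.e (X.prod X)) := by ring
      _ = b₁ * a₂ * Φ.e X := by rw [h1]; ring
  · rw [mul_assoc, h1', mul_assoc]
  · rw [← hab, show a₁ * a₂ * t = a₂ * (a₁ * t) by ring, h2', mul_assoc]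

/-- The system of automorphisms given by the Frobenius endomorphisms. -/
theorem exists_symX (X : 𝒱.Obj) : ∃ S : SymX W X ℕ,
    (∀ j c, IsTate Φ (X.prod X) j c ↔ S.TateSq j c) ∧ ∀ j c, IsTate Φ X j c ↔ S.Tate j c := by
  obtain ⟨a, b, ha, hb, hab, hf, hs⟩ := exists_common Φ X
  have hexp : ∀ t j, Φ.e (X.prod X) * (a * t) * j = Φ.e X * (b * t) * j := by
    intro t j
    calc Φ.e (X.prod X) * (a * t) * j = (a * Φ.e (X.prod X)) * t * j := by ring
      _ = Φ.e X * (b * t) * j := by rw [hab]; ring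
  have hG : ∀ {j c}, (∃ s, 0 < s ∧ W.map (W534.iter (Φ.Fr (X.prod X)) s) c =
      ((p : W.K) ^ (Φ.e (X.prod X) * s * j)) • c) → ∀ᶠ t in divFilter,
      W.map (W534.iter (Φ.Fr (X.prod X)) (a * t)) c = ((p : W.K) ^ (Φ.e X * (b * t))) ^ j • c := by
    rintro j c ⟨s, hs, h⟩
    refine eventually_div.2 ⟨s, hs, ?_⟩
    rintro _ - ⟨t, rfl⟩
    have := frob_mul Φ h (a * t)
    rw [show s * (a * t) = a * (s * t) by ring, hexp] at this
    rw [this, ← pow_mul]
  refine ⟨{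
    fil := divFilter
    F := fun t => W.map (W534.iter (Φ.Fr X) (b * t))
    G := fun t => W.map (W534.iter (Φ.Fr (X.prod X)) (a * t))
    χ := fun t => (p : W.K) ^ (Φ.e X * (b * t))
    ne := fun t => pow_ne_zero _ (cast_p_ne Φ)
    surj := fun t => map_iter_surjective Φ _
    degF := fun t i x hx => W.map_mem _ hx
    trF := fun t x => by rw [tr_iter, ← pow_mul]
    trG := fun t x => by rw [tr_iter, ← pow_mul, hexp, dim_prod]
    fst := hf
    snd := hs
    cyc := fun hz => hG (Φ.cyc hz) }, ?_, ?_⟩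
  · intro j c
    constructor
    · rintro ⟨hc, h⟩
      exact ⟨hc, hG h⟩
    · rintro ⟨hc, h⟩
      obtain ⟨m, hm, h⟩ := eventually_div.1 h
      refine ⟨hc, a * m, Nat.mul_pos ha hm, ?_⟩
      rw [hexp, pow_mul]
      exact h m hm dvd_rfl
  · intro j c
    constructor
    · rintro ⟨hc, s, hs, h⟩
      refine ⟨hc, eventually_div.2 ⟨s, hs, ?_⟩⟩
      rintro _ - ⟨t, rfl⟩
      have := frob_mul Φ h (b * t)
      rw [show s * (b * t) = b * (s * t) by ring] at this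
      refine this.trans ?_
      rw [pow_mul]
    · rintro ⟨hc, h⟩
      obtain ⟨m, hm, h⟩ := eventually_div.1 h
      refine ⟨hc, b * m, Nat.mul_pos hb hm, ?_⟩
      rw [pow_mul]
      exact h m hm dvd_rfl

variable {Φ}

/-- The Tate conjecture for the square in a range of codimensions. -/
theorem tate_range (hD : X.IsCyc 1 D) (hHL : HardLefschetz W X D) {d : ℕ} (hd : d < X.dim)
    (h : TateIn Φ (X.prod X) d) {q : ℕ} (hq : q ≤ d ∨ 2 * X.dim - d ≤ q) :
    TateIn Φ (X.prod X) q := by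
  obtain ⟨S, h1, -⟩ := exists_symX Φ X
  intro c hc
  exact S.range hD hHL hd (fun c hc => h c ((h1 _ _).2 hc)) hq ((h1 _ _).1 hc)

/-- The Tate conjecture for the variety in a range of codimensions. -/
theorem tate_self (hD : X.IsCyc 1 D) (hHL : HardLefschetz W X D) {d : ℕ} (hd : d < X.dim)
    (h : TateIn Φ (X.prod X) d) {q : ℕ} (hq : q ≤ d ∨ X.dim - d ≤ q) : TateIn Φ X q := by
  obtain ⟨S, h1, h2⟩ := exists_symX Φ X
  intro c hc
  exact S.self hD hHL hd (fun c hc => h c ((h1 _ _).2 hc)) hq ((h2 _ _).1 hc)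

/-- The Tate conjecture in one codimension and the Tate classes of given Kunneth types. -/
theorem tate_types (hD : X.IsCyc 1 D) (hHL : HardLefschetz W X D) {d : ℕ} (hd : d < X.dim) :
    TateIn Φ (X.prod X) d ↔ FarTypes W X d (IsTate Φ (X.prod X)) := by
  obtain ⟨S, h1, -⟩ := exists_symX Φ X
  constructor
  · intro h q c j j' hc hjj hk hreg
    exact S.region hD hHL hd (fun c hc => h c ((h1 _ _).2 hc)) ((h1 _ _).1 hc) hjj hk hreg
  · intro h c hc
    exact S.of_region hD hHL (fun c j j' hc' => h d c j j' ((h1 _ _).2 hc')) ((h1 _ _).1 hc)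

/-- The inverse classes. -/
theorem tate_inverse (hD : X.IsCyc 1 D) (hHL : HardLefschetz W X D) {d : ℕ} (hd : d < X.dim)
    (h : TateIn Φ (X.prod X) d) {i : ℕ} (hi : i ≤ d) : InverseIsComb W X D i := by
  obtain ⟨S, h1, -⟩ := exists_symX Φ X
  intro τ hτ
  exact S.inverse hD hHL hd (fun c hc => h c ((h1 _ _).2 hc)) hi hτ

/-- A rational cycle which induces the inverse. -/
theorem inverse_cycle (hD : X.IsCyc 1 D) (hHL : HardLefschetz W X D) {d : ℕ} (hd : d < X.dim)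
    (h : HomEqNumIn W (X.prod X) (2 * X.dim - d)) {i : ℕ} (hi : i ≤ d) :
    InverseIsCycle W X D i := by
  obtain ⟨Λ, hΛ⟩ := W537.oneCycle hD hd.le W (DL.inverts_of_homEqNumIn hD hHL hd h)
  have h3 := ((hΛ W).out 0 2).1 (fun _ _ => rfl)
  obtain ⟨h4, h5⟩ := h3 i hi
  refine ⟨Λ i, h4.1, ?_, ((W537.inverts_iff hD W (by omega)).1 h4).2,
    fun j hj a ha => h5 j (by omega) a ha⟩
  rw [show X.dim - (X.dim - i) = i by omega]
  exact W.cl_mem h4.1

variable {σ : W.K →+* ℂ}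

/-- **The pole formula at one integer on the square.** -/
theorem pole_range (hp : 1 < p) (hRH : RiemannHyp Φ σ (X.prod X)) (hRH' : RiemannHyp Φ σ X)
    (hD : X.IsCyc 1 D) (hHL : HardLefschetz W X D) {d : ℕ} (hd : d < X.dim)
    (h : PoleFormula Φ σ (X.prod X) d) :
    (∀ q, q ≤ 2 * X.dim → (q ≤ d ∨ 2 * X.dim - d ≤ q) → PoleFormula Φ σ (X.prod X) q) ∧
    (∀ q, q ≤ X.dim → (q ≤ d ∨ X.dim - d ≤ q) → PoleFormula Φ σ X q) ∧
    ∀ i ≤ d, InverseIsCycle W X D i := by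
  have hdim : (X.prod X).dim = 2 * X.dim := by rw [dim_prod]; ring
  have hT := ((pole_iff_tate hp hRH (by omega)).1 h).1
  have h' := (pole_symm hp hRH (j := d) (l := 2 * X.dim - d) (by omega)).1 h
  have hDD := ((pole_iff_tate hp hRH (by omega)).1 h').2
  refine ⟨fun q hq hq' => ?_, fun q hq hq' => ?_, fun i hi => inverse_cycle hD hHL hd hDD hi⟩
  · exact (pole_iff_tate hp hRH (by omega)).2
      ⟨tate_range hD hHL hd hT hq', DL.homEqNumIn_range hD hHL hd hDD hq hq'⟩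
  · exact (pole_iff_tate hp hRH' hq).2
      ⟨tate_self hD hHL hd hT hq', DL.self_range hD hHL hd hDD hq hq'⟩

end Pool.Agent.Q82.OC
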