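import Pool.Agent.Q82.OC.Defs

/-!
# Galois actions on the cohomology of a variety and of its square: definitions
-/

set_option autoImplicit false

open CategoryTheory AlgebraicGeometry

universe u v w

namespace Pool.Agent.Q82.OC

open Pool.Agent.H914 Pool.Agent.H447 Pool.Agent.W534 VarClass Obj WeilCohomology

variable {k : Type u} [Field k] {𝒱 : VarClass k} {ops : CycleOps 𝒱}

/-- The value of an endomorphism of the cohomology algebra. -/
noncomputable def ev {W : WeilCohomology.{u, v} ops} {Z : 𝒱.Obj} (F : W.H Z →ₐ[W.K] W.H Z) (a : W.H Z) :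
    W.H Z := F a

/-- The trace (orientation) of a class. -/
noncomputable def trOf (W : WeilCohomology.{u, v} ops) (Z : 𝒱.Obj) (a : W.H Z) : W.K := W.tr Z a

/-- The class of a cycle. -/
noncomputable def clOf (W : WeilCohomology.{u, v} ops) (Z : 𝒱.Obj) (z : Z.Cycles) : W.H Z := W.cl Z z

/-- The pull-back of a class. -/
noncomputable def pullOf (W : WeilCohomology.{u, v} ops) {Y Z : 𝒱.Obj} (f : Y ⟶ Z) (a : W.H Z) : W.H Y :=
  W.map f a

/-- The formal properties of the action `ρ` of a Galois group `Γ` on the cohomology algebra of `Z`,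
where `χ` is the cyclotomic character: it respects the degrees, multiplies the orientation by
`χ ^ dim Z`, and for each cycle of codimension `j` a subgroup of finite index acts on its class as
multiplication by `χ ^ j`. -/
structure IsGalAct (W : WeilCohomology.{u, v} ops) (Z : 𝒱.Obj) {Γ : Type w} [Group Γ]
    (χ : Γ → W.K) (ρ : Γ → (W.H Z →ₐ[W.K] W.H Z)) : Prop where
  one : ∀ a, ev (ρ 1) a = a
  mul : ∀ g h a, ev (ρ (g * h)) a = ev (ρ g) (ev (ρ h) a)
  deg : ∀ g i a, HasDeg W Z i a → HasDeg W Z i (ev (ρ g) a)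
  tr : ∀ g a, trOf W Z (ev (ρ g) a) = χ g ^ Z.dim * trOf W Z a
  cyc : ∀ j z, Z.IsCyc j z → ∃ Δ : Subgroup Γ, Δ.FiniteIndex ∧
    ∀ g ∈ Δ, ev (ρ g) (clOf W Z z) = χ g ^ j • clOf W Z z

/-- The actions of a Galois group `Γ` on the cohomology of `X` and of `X × X`: the cyclotomic
character `χ` and the compatible actions `ρ` and `υ` on the two cohomology algebras. -/
structure GalSq (W : WeilCohomology.{u, v} ops) (X : 𝒱.Obj) (Γ : Type w) [Group Γ] where
  /-- The cyclotomic character. -/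
  χ : Γ → W.K
  χ_mul : ∀ g h, χ (g * h) = χ g * χ h
  χ_ne : ∀ g, χ g ≠ 0
  /-- The action on the cohomology of `X`. -/
  ρ : Γ → (W.H X →ₐ[W.K] W.H X)
  /-- The action on the cohomology of `X × X`. -/
  υ : Γ → (W.H (X.prod X) →ₐ[W.K] W.H (X.prod X))
  act : IsGalAct W X χ ρ
  actSq : IsGalAct W (X.prod X) χ υ
  fst : ∀ g a, ev (υ g) (pullOf W (Obj.fst X X) a) = pullOf W (Obj.fst X X) (ev (ρ g) a)
  snd : ∀ g a, ev (υ g) (pullOf W (Obj.snd X X) a) = pullOf W (Obj.snd X X) (ev (ρ g) a)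

variable {W : WeilCohomology.{u, v} ops} {X : 𝒱.Obj} {Γ : Type w} [Group Γ]

/-- The Tate classes on `X × X` of codimension `q`: the classes `c` of degree `2 q` with
`g c = χ(g) ^ q c` for all `g` in a subgroup of finite index. -/
def TateSq (G : GalSq W X Γ) (q : ℕ) (c : W.H (X.prod X)) : Prop :=
  HasDeg W (X.prod X) (2 * q) c ∧ ∃ Δ : Subgroup Γ, Δ.FiniteIndex ∧
    ∀ g ∈ Δ, ev (G.υ g) c = G.χ g ^ q • c

/-- The Tate classes on `X` of codimension `q`. -/
def TateX (G : GalSq W X Γ) (q : ℕ) (c : W.H X) : Prop :=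
  HasDeg W X (2 * q) c ∧ ∃ Δ : Subgroup Γ, Δ.FiniteIndex ∧ ∀ g ∈ Δ, ev (G.ρ g) c = G.χ g ^ q • c

/-- The Tate conjecture for `X × X` in codimension `q`. -/
def TateSqIn (G : GalSq W X Γ) (q : ℕ) : Prop :=
  ∀ c, TateSq G q c → IsComb W (X.prod X) q c

/-- The Tate conjecture for `X` in codimension `q`. -/
def TateXIn (G : GalSq W X Γ) (q : ℕ) : Prop :=
  ∀ c, TateX G q c → IsComb W X q c

/-- `φ` is zero on `H^j(X)` for all `j ≠ i`. -/
def SupportedOn (W : WeilCohomology.{u, v} ops) (X : 𝒱.Obj) (i : ℕ) (φ : W.H X → W.H X) : Prop :=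
  ∀ j, j ≠ i → ∀ a, HasDeg W X j a → φ a = 0

/-- `g φ g⁻¹ = χ(g) ^ m φ` for all `g` in a subgroup of finite index. -/
def Equivar (G : GalSq W X Γ) (m : ℤ) (φ : W.H X → W.H X) : Prop :=
  ∃ Δ : Subgroup Γ, Δ.FiniteIndex ∧ ∀ g ∈ Δ, ∀ a, ev (G.ρ g) (φ a) = G.χ g ^ m • φ (ev (G.ρ g) a)

/-- `φ` is a homomorphism of Galois representations (of a subgroup of finite index) from `H^i(X)` to
the Tate twist `H^(i')(X)(m)`, where `i' = i + 2 m`, extended by zero to the other `H^j(X)`. -/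
def IsGalHom (G : GalSq W X Γ) (i i' : ℕ) (φ : W.H X → W.H X) : Prop :=
  IsLinearMap W.K φ ∧ SupportedOn W X i φ ∧ (∀ a, HasDeg W X i a → HasDeg W X i' (φ a)) ∧
    ∃ m : ℤ, (i' : ℤ) = i + 2 * m ∧ Equivar G m φ

/-- `φ` is induced by a linear combination of classes of cycles on `X × X`. -/
def IsAlgOp (W : WeilCohomology.{u, v} ops) (X : 𝒱.Obj) (φ : W.H X → W.H X) : Prop :=
  ∃ (q : ℕ) (c : W.H (X.prod X)), IsComb W (X.prod X) q c ∧ ∀ a, actC W c a = φ a

/-- For all `i` and `i'` in `[0, d]` or `[2 n - d, 2 n]`, `n = dim X`, all homomorphisms of Galois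
representations from `H^i(X)` to a Tate twist of `H^(i')(X)` are induced by linear combinations of
classes of cycles on `X × X`. -/
def OuterHomsAlgebraic (G : GalSq W X Γ) (d : ℕ) : Prop :=
  ∀ i i', (i ≤ d ∨ 2 * X.dim - d ≤ i) → (i' ≤ d ∨ 2 * X.dim - d ≤ i') → ∀ φ, IsGalHom G i i' φ →
    IsAlgOp W X φ

end Pool.Agent.Q82.OC
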