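import Pool.Agent.Q82.OC.Main
import Pool.Agent.Q82.OC.GalDefs

/-!
# The Tate conjecture in one codimension on the square of a variety: Galois actions
-/

set_option autoImplicit false

open CategoryTheory AlgebraicGeometry Filter

universe u v w

namespace Pool.Agent.Q82.OC

open Pool.Agent.H914 Pool.Agent.H447 Pool.Agent.W534 VarClass Obj WeilCohomology

variable {k : Type u} [Field k] {𝒱 : VarClass k} {ops : CycleOps 𝒱}

/-- The sets of group elements which contain a subgroup of finite index. -/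
def finFilter (Γ : Type w) [Group Γ] : Filter Γ where
  sets := {S | ∃ Δ : Subgroup Γ, Δ.FiniteIndex ∧ ∀ g ∈ Δ, g ∈ S}
  univ_sets := ⟨⊤, inferInstance, fun _ _ => trivial⟩
  sets_of_superset := by
    rintro S T ⟨Δ, hΔ, h⟩ hST
    exact ⟨Δ, hΔ, fun g hg => hST (h g hg)⟩
  inter_sets := by
    rintro S T ⟨Δ, hΔ, h⟩ ⟨Δ', hΔ', h'⟩
    exact ⟨Δ ⊓ Δ', inferInstance, fun g hg => ⟨h g hg.1, h' g hg.2⟩⟩

lemma eventually_fin {Γ : Type w} [Group Γ] {P : Γ → Prop} :
    (∀ᶠ g in finFilter Γ, P g) ↔ ∃ Δ : Subgroup Γ, Δ.FiniteIndex ∧ ∀ g ∈ Δ, P g := Iff.rfl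

variable {W : WeilCohomology.{u, v} ops} {X : 𝒱.Obj} {Γ : Type w} [Group Γ] (G : GalSq W X Γ)

/-- The system of automorphisms of a Galois action. -/
noncomputable def GalSq.symX : SymX W X Γ where
  fil := finFilter Γ
  F := G.ρ
  G := G.υ
  χ := G.χ
  ne := G.χ_ne
  surj g a := by
    refine ⟨ev (G.ρ g⁻¹) a, ?_⟩
    have h1 := G.act.mul g g⁻¹ a
    rw [mul_inv_cancel, G.act.one] at h1
    exact h1.symm
  degF g i a ha := G.act.deg g i a ha
  trF g x := G.act.tr g x
  trG g x := by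
    have h1 : W.tr (X.prod X) (G.υ g x) = G.χ g ^ (X.prod X).dim * W.tr (X.prod X) x :=
      G.actSq.tr g x
    rwa [dim_prod] at h1
  fst g x := G.fst g x
  snd g x := G.snd g x
  cyc := by
    intro j z hz
    exact eventually_fin.2 (G.actSq.cyc j z hz)

variable {G} {D : X.Cycles}

theorem gal_region (hD : X.IsCyc 1 D) (hHL : HardLefschetz W X D) {d : ℕ} (hd : d < X.dim) :
    TateSqIn G d ↔ FarTypes W X d (TateSq G) :=
  ⟨fun h _ _ _ _ hc hjj hk hreg => G.symX.region hD hHL hd h hc hjj hk hreg,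
    fun h _ hc => G.symX.of_region hD hHL (fun c j j' => h d c j j') hc⟩

theorem gal_range (hD : X.IsCyc 1 D) (hHL : HardLefschetz W X D) {d : ℕ} (hd : d < X.dim)
    (h : TateSqIn G d) {q : ℕ} (hq : q ≤ d ∨ 2 * X.dim - d ≤ q) : TateSqIn G q :=
  fun _ hc => G.symX.range hD hHL hd h hq hc

theorem gal_self (hD : X.IsCyc 1 D) (hHL : HardLefschetz W X D) {d : ℕ} (hd : d < X.dim)
    (h : TateSqIn G d) {q : ℕ} (hq : q ≤ d ∨ X.dim - d ≤ q) : TateXIn G q :=
  fun _ hc => G.symX.self hD hHL hd h hq hc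

theorem gal_inverse (hD : X.IsCyc 1 D) (hHL : HardLefschetz W X D) {d : ℕ} (hd : d < X.dim)
    (h : TateSqIn G d) {i : ℕ} (hi : i ≤ d) : InverseIsComb W X D i :=
  fun _ hτ => G.symX.inverse hD hHL hd h hi hτ

/-- The homomorphisms between the Galois representations in low and high degrees are algebraic. -/
theorem gal_hom (hD : X.IsCyc 1 D) (hHL : HardLefschetz W X D) {d : ℕ} (hd : d < X.dim)
    (h : TateSqIn G d) : OuterHomsAlgebraic G d := by
  rintro i i' hi hi' f ⟨hlin, h1, h2, m, hm, Δ, hΔ, h3⟩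
  set φ : Module.End W.K (W.H X) := hlin.mk' f with hφ
  have hhom : IsHom (W.gr X) (2 * m) φ := by
    intro j a ha
    by_cases h0 : 0 ≤ j
    · lift j to ℕ using h0
      rw [grZ_natCast] at ha
      by_cases hj : j = i
      · subst hj
        rw [show (j : ℤ) + 2 * m = (i' : ℤ) by omega, grZ_natCast]
        exact h2 a ha
      · rw [show φ a = 0 from h1 j hj a ha]
        exact Submodule.zero_mem _
    · rw [grZ_of_neg (by omega)] at ha
      rw [(Submodule.mem_bot _).1 ha, map_zero]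
      exact Submodule.zero_mem _
  have hop : G.symX.Op m φ := ⟨hhom, eventually_fin.2 ⟨Δ, hΔ, h3⟩⟩
  have h4 := (G.symX.pair hD hHL).pure (r := X.dim - d) (by omega) (G.symX.hyp hd h) hop
    (j := i) (j' := i') hm h1 ?_
  · obtain ⟨γ, hγ, h5⟩ := mem_KOp_iff.1 h4
    by_cases hq : 0 ≤ (X.dim : ℤ) + m
    · obtain ⟨q, hq⟩ := Int.eq_ofNat_of_zero_le hq
      rw [hq] at hγ
      exact ⟨q, γ, hγ, fun a => LinearMap.congr_fun h5 a⟩
    · refine ⟨0, 0, Submodule.zero_mem _, fun a => ?_⟩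
      have h6 : γ = 0 := by
        rw [spanCycles] at hγ
        have h7 : γ ∈ (⊥ : Submodule W.K (W.H (X.prod X))) := by
          refine Submodule.span_le.2 ?_ hγ
          rintro _ ⟨q, hq', -⟩
          omega
        exact (Submodule.mem_bot _).1 h7
      have h7 := LinearMap.congr_fun h5 a
      rw [h6] at h7
      exact h7
  · rcases hi with hi | hi <;> rcases hi' with hi' | hi'
    · rw [abs_of_nonpos (by omega), abs_of_nonpos (by omega)]; omega
    · rw [abs_of_nonpos (by omega), abs_of_nonneg (by omega)]; omega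
    · rw [abs_of_nonneg (by omega), abs_of_nonpos (by omega)]; omega
    · rw [abs_of_nonneg (by omega), abs_of_nonneg (by omega)]; omega

end Pool.Agent.Q82.OC
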