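import Pool.Agent.Q82.OC.Defs
import Pool.Agent.H447R3.SpDefs

/-!
# The powers of the lowering operator: definitions
-/

set_option autoImplicit false

open CategoryTheory AlgebraicGeometry

universe u v

namespace Pool.Agent.Q82.OC

open Pool.Agent.H914 Pool.Agent.H447 Pool.Agent.W534 VarClass Obj WeilCohomology

variable {k : Type u} [Field k] {𝒱 : VarClass k} {ops : CycleOps 𝒱}

/-- `τ` is the class of degree `2 d` on `X × X` which induces the power `f ^ (n - d)` of the
lowering operator `f` attached to `D`, `n = dim X`. -/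
def IsLowerPow (W : WeilCohomology.{u, v} ops) (X : 𝒱.Obj) (D : X.Cycles) (d : ℕ)
    (τ : W.H (X.prod X)) : Prop :=
  HasDeg W (X.prod X) (2 * d) τ ∧
    ∀ σ, IsLoweringClass W X D σ → ∀ a : W.H X, actC W τ a = (actC W σ)^[X.dim - d] a

/-- The class which induces the power `f ^ (n - d)` of the lowering operator is the class of a cycle
with rational coefficients. -/
def LowerPowIsCycle (W : WeilCohomology.{u, v} ops) (X : 𝒱.Obj) (D : X.Cycles) (d : ℕ) : Prop :=
  ∃ z, (X.prod X).IsCyc d z ∧ IsLowerPow W X D d (W.cl _ z)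

/-- The class which induces the power `f ^ (n - d)` of the lowering operator is a `K`-linear
combination of classes of cycles. -/
def LowerPowIsComb (W : WeilCohomology.{u, v} ops) (X : 𝒱.Obj) (D : X.Cycles) (d : ℕ) : Prop :=
  ∃ τ, IsComb W (X.prod X) d τ ∧ IsLowerPow W X D d τ

/-- The class which induces the inverse of `D^(n-i) : H^i(X) → H^(2n-i)(X)` has the property
`P i (2 n - i)`. -/
def ForInverse (W : WeilCohomology.{u, v} ops) (X : 𝒱.Obj) (D : X.Cycles) (i : ℕ)
    (P : ℕ → ℕ → W.H (X.prod X) → Prop) : Prop :=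
  ∀ τ, IsInverseClass W X D (X.dim - i) τ → P i (2 * X.dim - i) τ

/-- Some `K`-linear combination of classes of cycles of codimension `i` on `X × X` is injective on
`H^(2n-i)(X)`. -/
def SomeCombInjective (W : WeilCohomology.{u, v} ops) (X : 𝒱.Obj) (i : ℕ) : Prop :=
  ∃ γ, IsComb W (X.prod X) i γ ∧ ∀ a : W.H X, HasDeg W X (2 * X.dim - i) a → actC W γ a = 0 → a = 0

end Pool.Agent.Q82.OC
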