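import Pool.Agent.Q82.OC.DescR
import Pool.Agent.Q82.OC.LowDefs
import Pool.Agent.Q82.DL.Main
import Pool.Agent.H447R3.NumB
import Pool.Agent.H447R3.WtB
import Pool.Agent.H914R2.HLam

/-!
# The Lefschetz standard conjecture up to one degree and one power of the lowering operator
-/

set_option autoImplicit false

open CategoryTheory AlgebraicGeometry Finset

universe u v

namespace Pool.Agent.Q82.OC

open Pool.Agent.H914 Pool.Agent.H447 Pool.Agent.W534 Pool.Agent.Q82.DL VarClass Obj WeilCohomology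

variable {k : Type u} [Field k] {𝒱 : VarClass k} {ops : CycleOps 𝒱}
  {W : WeilCohomology.{u, v} ops} {X : 𝒱.Obj}

/-- The lowering operator and the lowering class. -/
lemma exists_lower (hn : 1 ≤ X.dim) {D : X.Cycles} (hD : X.IsCyc 1 D)
    (hHL : HardLefschetz W X D) : ∃ f : Module.End W.K (W.H X),
      Val (W.gr X) X.dim (LinearMap.mulLeft W.K (W.cl X D)) f ∧ IsHom (W.gr X) (-2) f ∧
      (∃ τ, IsLoweringClass W X D τ) ∧ ∀ σ, IsLoweringClass W X D σ → W.corr σ = f := by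
  have h := W.isInternal X
  have hLR := rop_mulLeft (W := W) hD
  have hLh : IsHom (W.gr X) 2 (LinearMap.mulLeft W.K (W.cl X D)) := by
    simpa using rop_opAlg.hom hLR
  obtain ⟨f, t, hf, hfv⟩ := exists_sl2 h hLh W_hbd hHL
  obtain ⟨τ, hτf⟩ := exists_corr f
  refine ⟨f, hfv, hf, ⟨τ, ?_, fun j a ha => ?_⟩, ?_⟩
  · apply mem_gr_of_isHom
    rw [hτf]
    rwa [show (2 * (((X.dim - 1 : ℕ) : ℤ) - X.dim)) = -2 by omega]
  · have h1 := congrArg (fun F => F a) t.ef
    rw [LinearMap.sub_apply, Module.End.mul_apply, Module.End.mul_apply, wt,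
      scal_apply _ _ ha, node] at h1
    rw [hτf, h1]
    push_cast
    rfl
  · rintro σ ⟨hσ, hlow⟩
    have h1 : IsHom (W.gr X) (-2) (W.corr σ) := by
      have h2 := W.corr_isHom hσ
      rwa [show (2 * (((X.dim - 1 : ℕ) : ℤ) - X.dim)) = -2 by omega] at h2
    have h2 : LinearMap.mulLeft W.K (W.cl X D) * W.corr σ -
        W.corr σ * LinearMap.mulLeft W.K (W.cl X D) = wt h X.dim := by
      apply gr_ext h
      intro j a ha
      rw [LinearMap.sub_apply, Module.End.mul_apply, Module.End.mul_apply, hlow j a ha, wt,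
        scal_apply _ _ ha, node]
      push_cast
      rfl
    have h3 := t.ef
    refine sub_eq_zero.1 (eq_zero_of_ad_ad h hLh W_hbd hHL (h1.sub hf) ?_)
    have h4 : LinearMap.mulLeft W.K (W.cl X D) * (W.corr σ - f) -
        (W.corr σ - f) * LinearMap.mulLeft W.K (W.cl X D) = 0 := by
      rw [mul_sub, sub_mul, sub_sub_sub_comm, h2, h3, sub_self]
    rw [h4, mul_zero, zero_mul]

/-- The class inducing the power of the lowering operator exists and is unique, and it is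
characterized by the operator. -/
lemma lowerPow (hn : 1 ≤ X.dim) {D : X.Cycles} (hD : X.IsCyc 1 D)
    (hHL : HardLefschetz W X D) : ∃ f : Module.End W.K (W.H X),
      Val (W.gr X) X.dim (LinearMap.mulLeft W.K (W.cl X D)) f ∧
      (∃! σ, IsLoweringClass W X D σ) ∧
      ∀ d, d ≤ X.dim → (∃! τ, IsLowerPow W X D d τ) ∧
        ∀ τ, IsLowerPow W X D d τ ↔ W.corr τ = f ^ (X.dim - d) := by
  obtain ⟨f, hfv, hf, ⟨σ, hσ⟩, huniq⟩ := exists_lower hn hD hHL
  have hcorr : ∀ {a b : W.H (X.prod X)}, W.corr (k := k) (X := X) (Y := X) a = W.corr b → a = b := by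
    intro a b hab
    have h2 : corrLin W X X (a - b) = 0 := by
      rw [map_sub]
      exact sub_eq_zero.2 hab
    exact sub_eq_zero.1 (corr_inj h2)
  refine ⟨f, hfv, ⟨σ, hσ, fun σ' hσ' => hcorr ((huniq _ hσ').trans (huniq _ hσ).symm)⟩, ?_⟩
  intro d hd
  have key : ∀ τ, IsLowerPow W X D d τ ↔ W.corr τ = f ^ (X.dim - d) := by
    intro τ
    constructor
    · rintro ⟨-, h⟩
      apply LinearMap.ext
      intro a
      have h1 := h σ hσ a
      rw [actC] at h1
      rw [h1, Module.End.pow_apply, ← huniq σ hσ]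
      rfl
    · intro h
      refine ⟨?_, fun σ' hσ' a => ?_⟩
      · apply mem_gr_of_isHom
        rw [h]
        have := hf.pow (X.dim - d)
        rwa [show ((X.dim - d : ℕ) : ℤ) * -2 = 2 * ((d : ℤ) - X.dim) by
          push_cast [Nat.cast_sub hd]; ring] at this
      · rw [actC, h, Module.End.pow_apply, ← huniq σ' hσ']
        rfl
  refine ⟨?_, key⟩
  obtain ⟨τ, hτ⟩ := exists_corr (W := W) (X := X) (Y := X) (f ^ (X.dim - d))
  exact ⟨τ, (key τ).2 hτ, fun τ' hτ' => hcorr (((key τ').1 hτ').trans hτ.symm)⟩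

lemma corr_ext {a b : W.H (X.prod X)} (hab : W.corr (k := k) (X := X) (Y := X) a = W.corr b) :
    a = b := by
  have h2 : corrLin W X X (a - b) = 0 := by
    rw [map_sub]
    exact sub_eq_zero.2 hab
  exact sub_eq_zero.1 (corr_inj h2)

/-- The operator inverse to `D^(n-i)` is induced by a cycle. -/
lemma inverseIsCycle_iff {D : X.Cycles} (hD : X.IsCyc 1 D) (hHL : HardLefschetz W X D) {i : ℕ}
    (hi : i ≤ X.dim) : InverseIsCycle W X D i ↔
      ∀ t, IsInv (W.gr X) X.dim (LinearMap.mulLeft W.K (W.cl X D)) (X.dim - i) t →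
        ROp W X (-((X.dim - i : ℕ) : ℤ)) t := by
  constructor
  · rintro ⟨z, hz, hzi⟩ t ht
    rw [IsInv.unique (W.isInternal X) hHL (Nat.sub_le _ _) ht hzi.2]
    exact rop_corr (by omega) hz
  · intro h
    obtain ⟨τ, hτ, -⟩ := existsUnique_inverseClass (W := W) hD hHL (c := X.dim - i)
      (Nat.sub_le _ _)
    obtain ⟨z, hz, hz'⟩ := exists_of_rop (p := i) (by omega) (h _ hτ.2)
    refine ⟨z, hz, ?_⟩
    rw [corr_ext hz']
    exact hτ

lemma span_dual {D : X.Cycles} {c : ℕ} (hHL : HardLefschetz W X D) (hc : c ≤ X.dim) {T : Module.End W.K (W.H X)}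
    (hT : IsInv (W.gr X) X.dim (LinearMap.mulLeft W.K (W.cl X D)) c T)
    (h : ∀ τ, IsInverseClass W X D c τ →
      NumOrthogonal W (X.prod X) (X.dim - c) (X.dim + c) τ) :
    ∃ z, z ∈ KS (ROp W X) (-c) ∧ ∀ u ∈ KS (ROp W X) c,
      LinearMap.trace W.K (W.H X) (par (W.isInternal X) * (z * u)) =
        LinearMap.trace W.K (W.H X) (par (W.isInternal X) * (T * u)) := by
  obtain ⟨τ, rfl⟩ := exists_corr T
  have hτm : τ ∈ W.gr (X.prod X) (2 * (X.dim - c)) := by
    apply mem_gr_of_isHom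
    have := hT.isHom (W.isInternal X) hHL hc
    rwa [show (-(c : ℤ)) = ((X.dim - c : ℕ) : ℤ) - X.dim by omega] at this
  obtain ⟨γ, hγ, hγ'⟩ := exists_rep_of_orth (bil W (X.prod X))
    (spanCycles W (X.prod X) ((X.dim - c : ℕ) : ℤ))
    (spanCycles W (X.prod X) ((X.dim + c : ℕ) : ℤ))
    (W.tr (X.prod X) ∘ₗ LinearMap.mulLeft W.K τ) (by
      intro δ hδ h0
      exact h τ ⟨hτm, hT⟩ δ hδ (fun w hw => h0 _ (mem_span_cl hw)))
  refine ⟨W.corr γ, ?_, ?_⟩
  · rw [mem_KS_iff, mem_KOp_iff]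
    refine ⟨γ, ?_, rfl⟩
    rwa [show (X.dim : ℤ) + -(c : ℤ) = ((X.dim - c : ℕ) : ℤ) by omega]
  · intro u hu
    rw [mem_KS_iff, mem_KOp_iff] at hu
    obtain ⟨δ, hδ, rfl⟩ := hu
    have hδ' : δ ∈ spanCycles W (X.prod X) ((X.dim + c : ℕ) : ℤ) := by
      rwa [show ((X.dim + c : ℕ) : ℤ) = (X.dim : ℤ) + (c : ℤ) by push_cast; rfl]
    have e1 := hγ' _ (swap_span hδ')
    rw [bil_apply, LinearMap.comp_apply, LinearMap.mulLeft_apply,
      tr_mul_eq_trace (span_gr hγ), tr_mul_eq_trace hτm, map_swap_swap, mul_assoc,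
      mul_assoc] at e1
    exact e1

/-- **The main theorem.** -/
theorem lower_tfae {D : X.Cycles} (hD : X.IsCyc 1 D) (hHL : HardLefschetz W X D) {d : ℕ}
    (hd : d < X.dim) :
    List.TFAE [∀ i ≤ d, InverseIsCycle W X D i,
      LowerPowIsCycle W X D d,
      LowerPowIsComb W X D d,
      ∀ i ≤ d, SomeCombInjective W X i,
      ∀ i ≤ d, ForInverse W X D i (NumAlgebraic W (X.prod X)),
      ∀ i ≤ d, ForInverse W X D i (NumOrthogonal W (X.prod X))] := by
  have h := W.isInternal X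
  obtain ⟨f, hfv, -, hlp⟩ := lowerPow (W := W) (show 1 ≤ X.dim by omega) hD hHL
  obtain ⟨-, hiff⟩ := hlp d hd.le
  have hLK : LinearMap.mulLeft W.K (W.cl X D) ∈ KS (ROp W X) 1 :=
    Submodule.subset_span (rop_mulLeft (W := W) hD)
  tfae_have 1 → 2 := by
    intro h1
    have h2 : ROp W X (-((X.dim - d : ℕ) : ℤ)) (f ^ (X.dim - d)) := by
      apply f_pow_of_inv rop_opAlg h W_hbd (rop_mulLeft hD) hHL hfv
      intro c hrc hcn t ht
      have h3 := (inverseIsCycle_iff hD hHL (i := X.dim - c) (Nat.sub_le _ _)).1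
        (h1 _ (by omega))
      rw [show X.dim - (X.dim - c) = c by omega] at h3
      exact h3 t ht
    obtain ⟨z, hz, hz'⟩ := exists_of_rop (p := d) (by omega) h2
    exact ⟨z, hz, (hiff _).2 hz'⟩
  tfae_have 2 → 3 := by
    rintro ⟨z, hz, hz'⟩
    exact ⟨_, mem_span_cl hz, hz'⟩
  tfae_have 3 → 4 := by
    rintro ⟨τ, hτ, hτ'⟩ i hi
    have h2 : f ^ (X.dim - d) ∈ KS (ROp W X) (-((X.dim - d : ℕ) : ℤ)) := by
      rw [← (hiff τ).1 hτ', mem_KS_iff, mem_KOp_iff]
      refine ⟨τ, ?_, rfl⟩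
      rwa [show (X.dim : ℤ) + -((X.dim - d : ℕ) : ℤ) = (d : ℤ) by omega]
    obtain ⟨Z, hZ, hZi⟩ := exists_inverse rop_opAlg.kspan h W_hbd hLK hHL hfv
      (show 1 ≤ X.dim - d by omega) h2 (c := X.dim - i) (by omega) (by omega)
    rw [mem_KS_iff, mem_KOp_iff] at hZ
    obtain ⟨γ, hγ, rfl⟩ := hZ
    refine ⟨γ, ?_, ?_⟩
    · rw [IsComb]
      rwa [show (X.dim : ℤ) + -((X.dim - i : ℕ) : ℤ) = (i : ℤ) by omega] at hγ
    · intro b hb h0
      rw [HasDeg, show 2 * X.dim - i = X.dim + (X.dim - i) by omega] at hb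
      obtain ⟨a, ha, rfl⟩ := surj_pow hHL (c := X.dim - i) (by omega) hb
      rw [actC, hZi a ha] at h0
      rw [h0, map_zero]
  tfae_have 4 → 1 := by
    intro h4
    have hZ : ∀ c, X.dim - d ≤ c → c ≤ X.dim → ∃ Z ∈ KS (ROp W X) (-c),
        ∀ a ∈ W.gr X (X.dim - c), Z ((LinearMap.mulLeft W.K (W.cl X D) ^ c) a) = a := by
      intro c hc hcn
      obtain ⟨γ, hγ, hinj⟩ := h4 (X.dim - c) (by omega)
      apply rop_opAlg.exists_theta_of_inj hLK hHL hcn (ν := W.corr γ)
      · rw [mem_KS_iff, mem_KOp_iff]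
        refine ⟨γ, ?_, rfl⟩
        rw [IsComb] at hγ
        rwa [show (X.dim : ℤ) + -(c : ℤ) = ((X.dim - c : ℕ) : ℤ) by omega]
      · intro a ha h0
        apply hinj a _ h0
        rw [HasDeg, show 2 * X.dim - (X.dim - c) = X.dim + c by omega]
        exact ha
    have hd1 := exists_theta_of_desc rop_opAlg h W_hbd rop_str (rop_mulLeft (W := W) hD) hHL
      (show 1 ≤ X.dim - d by omega) hZ
    have hd2 := proj_of_inv rop_opAlg h W_hbd (rop_mulLeft (W := W) hD) hHL (c₀ := X.dim - d)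
      (fun c hc hcn => (hd1 (X.dim - c) (by omega) c hc (by omega)).2.2)
    intro i hi
    rw [inverseIsCycle_iff hD hHL (by omega)]
    exact (hd2 i (by omega) (X.dim - i) (by omega) (by omega)).2.2
  tfae_have 1 → 5 := by
    intro h1 i hi τ hτ
    obtain ⟨z, hz, hz'⟩ := h1 i hi
    refine ⟨z, hz, fun u hu => ?_⟩
    have : τ = W.cl _ z := corr_ext (IsInv.unique h hHL (Nat.sub_le _ _) hτ.2 hz'.2)
    rw [this]
    exact tr_mul_cl hz hu (by rw [dim_prod]; omega)
  tfae_have 5 → 6 := by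
    intro h5 i hi τ hτ
    obtain ⟨z, hz, hzu⟩ := h5 i hi τ hτ
    apply NumRational.numOrthogonal (by rw [dim_prod]; omega)
    intro u hu
    exact ⟨_, hzu u hu, fun h0 => h0 z hz⟩
  tfae_have 6 → 4 := by
    intro h6 i hi
    have hmain := exists_theta_of_num' rop_opAlg.kspan h W_hbd hLK hHL
      (show 1 ≤ X.dim - d by omega) (by
        intro c hc hcn T hT
        apply span_dual hHL hcn hT
        intro τ hτ
        have := h6 (X.dim - c) (by omega) τ
          (by rwa [show X.dim - (X.dim - c) = c by omega])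
        rwa [show 2 * X.dim - (X.dim - c) = X.dim + c by omega] at this)
    obtain ⟨-, -, θ, hθ, hθ'⟩ := hmain i (by omega) (X.dim - i) (by omega) (by omega)
    obtain ⟨γ, hγ, rfl⟩ := mem_KOp_iff.1 (mem_KS_iff.1 hθ)
    refine ⟨γ, ?_, ?_⟩
    · rw [IsComb]
      rwa [show (X.dim : ℤ) + -((X.dim - i : ℕ) : ℤ) = (i : ℤ) by omega] at hγ
    · intro b hb h0
      rw [HasDeg, show 2 * X.dim - i = X.dim + (X.dim - i) by omega] at hb
      obtain ⟨a, ha, rfl⟩ := surj_pow hHL (c := X.dim - i) (by omega) hb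
      rw [actC, hθ' a ha] at h0
      rw [h0, map_zero]
  tfae_finish

end Pool.Agent.Q82.OC
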