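import Pool.Agent.Q82.OC.NumR
import Pool.Agent.Q82.OC.Abs
import Pool.Agent.Q82.DL.Str

/-!
# The powers of the lowering operator and the inverses of the Lefschetz isomorphisms
-/

set_option autoImplicit false

open Finset

namespace Pool.Agent.Q82.OC

open Pool.Agent.H914 Pool.Agent.H447 Pool.Agent.Q82.DL

variable {K : Type*} [Field K] [CharZero K] {V : Type*} [AddCommGroup V] [Module K V]
variable {gr : ℕ → Submodule K V} {n : ℕ} {L f : Module.End K V}
  {R : ℤ → Module.End K V → Prop}

/-- The projectors from left inverses. -/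
theorem proj_of_inv (hR : OpAlg gr R) (h : DirectSum.IsInternal gr)
    (hbd : ∀ i, 2 * n + 1 ≤ i → gr i = ⊥) (hL : R 1 L) (hHL : HardLef gr n L) {c₀ : ℕ}
    (hZ : ∀ c, c₀ ≤ c → c ≤ n → ∃ Z, R (-c) Z ∧ ∀ a ∈ gr (n - c), Z ((L ^ c) a) = a) :
    ∀ m ≤ n, ∀ c, c₀ ≤ c → c + m = n → R 0 (proj h (n - c)) ∧ R 0 (proj h (n + c)) ∧
      ∀ t, IsInv gr n L c t → R (-c) t := by
  have hLh : IsHom gr 2 L := by simpa using hR.hom hL
  intro m
  induction m using Nat.strong_induction_on with
  | _ m ih =>
    intro hm c hcc hc
    set A : Module.End K V := 1 - ∑ l ∈ range m, proj h l with hA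
    set B : Module.End K V := 1 - ∑ l ∈ range m, proj h (2 * n - l) with hB
    have hAR : R 0 A := by
      apply hR.sub hR.one
      apply hR.sum
      intro l hl
      rw [Finset.mem_range] at hl
      have := (ih l hl (by omega) (n - l) (by omega) (by omega)).1
      rwa [show n - (n - l) = l by omega] at this
    have hBR : R 0 B := by
      apply hR.sub hR.one
      apply hR.sum
      intro l hl
      rw [Finset.mem_range] at hl
      have := (ih l hl (by omega) (n - l) (by omega) (by omega)).2.1
      rwa [show n + (n - l) = 2 * n - l by omega] at this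
    have hAlow : ∀ l < m, ∀ a ∈ gr l, A a = 0 := by
      intro l hl a ha
      rw [hA, LinearMap.sub_apply, Module.End.one_apply, LinearMap.sum_apply,
        Finset.sum_eq_single l, proj_same h ha, sub_self]
      · intro l' _ hl'; exact proj_ne h ha (Ne.symm hl')
      · intro h'; exact absurd (Finset.mem_range.2 hl) h'
    have hAhigh : ∀ l, m ≤ l → ∀ a ∈ gr l, A a = a := by
      intro l hl a ha
      rw [hA, LinearMap.sub_apply, Module.End.one_apply, LinearMap.sum_apply,
        Finset.sum_eq_zero, sub_zero]
      intro l' hl'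
      rw [Finset.mem_range] at hl'
      exact proj_ne h ha (by omega)
    have hBhigh : ∀ l, 2 * n - m < l → ∀ a ∈ gr l, B a = 0 := by
      intro l hl a ha
      by_cases hl2 : 2 * n < l
      · rw [hbd l (by omega)] at ha
        rw [(Submodule.mem_bot _).1 ha, map_zero]
      · rw [hB, LinearMap.sub_apply, Module.End.one_apply, LinearMap.sum_apply,
          Finset.sum_eq_single (2 * n - l), show 2 * n - (2 * n - l) = l by omega,
          proj_same h ha, sub_self]
        · intro l' hl' hne
          rw [Finset.mem_range] at hl'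
          exact proj_ne h ha (by omega)
        · intro h'; exact absurd (Finset.mem_range.2 (by omega)) h'
    have hBlow : ∀ l ≤ 2 * n - m, ∀ a ∈ gr l, B a = a := by
      intro l hl a ha
      rw [hB, LinearMap.sub_apply, Module.End.one_apply, LinearMap.sum_apply,
        Finset.sum_eq_zero, sub_zero]
      intro l' hl'
      rw [Finset.mem_range] at hl'
      exact proj_ne h ha (by omega)
    -- the truncation of `L ^ c`
    set U : Module.End K V := B * L ^ c * A with hU
    have hUR : R c U := by
      have h1 : R c (L ^ c) := hR.cast (hR.pow hL c) (by ring)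
      exact hR.cast (hR.mul (hR.mul hBR h1) hAR) (by ring)
    have hUeq : U = L ^ c * proj h (n - c) := by
      apply gr_ext h
      intro l a ha
      rw [hU, Module.End.mul_apply, Module.End.mul_apply, Module.End.mul_apply]
      have hmem := pow_L_mem hLh ha c
      by_cases hl : l = n - c
      · subst hl
        rw [proj_same h ha, hAhigh _ (by omega) a ha, hBlow _ (by omega) _ hmem]
      · rw [proj_ne h ha hl, map_zero]
        by_cases hl2 : l < m
        · rw [hAlow l hl2 a ha, map_zero, map_zero]
        · rw [hAhigh l (by omega) a ha, hBhigh _ (by omega) _ hmem]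
    obtain ⟨Z, hZR, hZi⟩ := hZ c hcc (by omega)
    have hZh := hR.hom hZR
    have hP : Z * U = proj h (n - c) := by
      apply gr_ext h
      intro l a ha
      rw [hUeq, Module.End.mul_apply, Module.End.mul_apply]
      by_cases hl : l = n - c
      · subst hl
        rw [proj_same h ha, hZi a ha]
      · rw [proj_ne h ha hl, map_zero, map_zero]
    have hPR : R 0 (proj h (n - c)) := by
      rw [← hP]
      exact hR.cast (hR.mul hZR hUR) (by ring)
    have hinv : IsInv gr n L c (proj h (n - c) * Z) := by
      constructor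
      · intro a ha
        rw [Module.End.mul_apply, hZi a ha, proj_same h ha]
      · intro l hl b hb
        rw [Module.End.mul_apply]
        have h1 := hZh l b (by rw [grZ_natCast]; exact hb)
        by_cases h3 : 2 * c ≤ l
        · rw [show (l : ℤ) + 2 * -(c : ℤ) = ((l - 2 * c : ℕ) : ℤ) by omega, grZ_natCast] at h1
          exact proj_ne h h1 (by omega)
        · rw [grZ_of_neg (by omega)] at h1
          rw [(Submodule.mem_bot _).1 h1, map_zero]
    have hiR : ∀ t, IsInv gr n L c t → R (-c) t := by
      intro t ht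
      rw [IsInv.unique h hHL (by omega) ht hinv]
      exact hR.cast (hR.mul hPR hZR) (by ring)
    refine ⟨hPR, ?_, hiR⟩
    have h2 : L ^ c * (proj h (n - c) * Z) = proj h (n + c) := by
      apply gr_ext h
      intro j b hb
      rw [Module.End.mul_apply]
      by_cases hj : j = n + c
      · subst hj
        obtain ⟨a, ha, rfl⟩ := surj_pow hHL (by omega) hb
        rw [hinv.1 a ha, proj_same _ hb]
      · rw [proj_ne _ hb hj, hinv.2 j hj b hb, map_zero]
    rw [← h2]
    exact hR.cast (hR.mul (hR.pow hL c) (hR.mul hPR hZR)) (by ring)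

/-- The diagonal operators on the strings in one degree. -/
lemma exists_diag (hR : OpAlg gr R) (h : DirectSum.IsInternal gr) (hL : R 1 L)
    (hHL : HardLef gr n L) {c₀ c : ℕ} (hc₀ : c₀ ≤ c)
    (hi : ∀ c, c₀ ≤ c → c ≤ n → ∀ t, IsInv gr n L c t → R (-c) t) (γ : ℕ → ℚ) :
    ∃ Γ, R 0 Γ ∧ ∀ k, c + 2 * k ≤ n → ∀ a ∈ gr (n - (c + 2 * k)),
      (L ^ (c + 2 * k + 1)) a = 0 → Γ ((L ^ k) a) = (γ k : K) • (L ^ k) a := by
  have hLh : IsHom gr 2 L := by simpa using hR.hom hL
  have hRL : ∀ m : ℕ, R m (L ^ m) := fun m => hR.cast (hR.pow hL m) (by ring)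
  have ht : ∀ j, ∃ t, R (-((c + 2 * j : ℕ) : ℤ)) t ∧
      ((c + 2 * j ≤ n ∧ IsInv gr n L (c + 2 * j) t) ∨ (n < c + 2 * j ∧ t = 0)) := by
    intro j
    by_cases hj : c + 2 * j ≤ n
    · obtain ⟨t, ht⟩ := exists_isInv h hLh hHL hj
      exact ⟨t, hi _ (by omega) hj t ht, Or.inl ⟨hj, ht⟩⟩
    · exact ⟨0, hR.zero _, Or.inr ⟨by omega, rfl⟩⟩
  choose t htR ht' using ht
  -- the projectors onto the strings of length at least `c + 2 j`
  set q : ℕ → Module.End K V := fun j => L ^ j * t j * L ^ (c + j) with hq
  have hqR : ∀ j, R 0 (q j) := fun j =>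
    hR.cast (hR.mul (hR.mul (hRL j) (htR j)) (hRL (c + j))) (by push_cast; ring)
  have hqv : ∀ j k, c + 2 * k ≤ n → ∀ a ∈ gr (n - (c + 2 * k)),
      (L ^ (c + 2 * k + 1)) a = 0 → q j ((L ^ k) a) = if j ≤ k then (L ^ k) a else 0 := by
    intro j k hk a ha hp
    have hpp : ∀ (a b : ℕ) (x : V), (L ^ a) ((L ^ b) x) = (L ^ (a + b)) x := by
      intro a b x
      rw [pow_add, Module.End.mul_apply]
    rw [hq]
    simp only [Module.End.mul_apply]
    split_ifs with hjk
    · rcases ht' j with ⟨hj, hinv⟩ | ⟨hj, -⟩
      · have e1 : (L ^ (c + j)) ((L ^ k) a) = (L ^ (c + 2 * j)) ((L ^ (k - j)) a) := by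
          rw [hpp, hpp, show c + j + k = c + 2 * j + (k - j) by omega]
        have hm := pow_L_mem hLh ha (k - j)
        rw [show n - (c + 2 * k) + 2 * (k - j) = n - (c + 2 * j) by omega] at hm
        rw [e1, hinv.1 _ hm, hpp, show j + (k - j) = k by omega]
      · omega
    · have e1 : (L ^ (c + j)) ((L ^ k) a) = 0 := by
        rw [hpp, show c + j + k = (j - k - 1) + (c + 2 * k + 1) by omega, ← hpp, hp, map_zero]
      rw [e1, map_zero, map_zero]
  refine ⟨∑ j ∈ range (n + 1), (γ j : K) • (q j - q (j + 1)), ?_, ?_⟩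
  · exact hR.sum fun j _ => hR.smul _ (hR.sub (hqR j) (hqR (j + 1)))
  · intro k hk a ha hp
    rw [LinearMap.sum_apply, sum_eq_single k]
    · rw [LinearMap.smul_apply, LinearMap.sub_apply, hqv k k hk a ha hp, if_pos le_rfl,
        hqv (k + 1) k hk a ha hp, if_neg (by omega), sub_zero]
    · intro j _ hj
      rw [LinearMap.smul_apply, LinearMap.sub_apply, hqv j k hk a ha hp,
        hqv (j + 1) k hk a ha hp]
      by_cases h1 : j ≤ k
      · rw [if_pos h1, if_pos (by omega), sub_self, smul_zero]
      · rw [if_neg h1, if_neg (by omega), sub_self, smul_zero]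
    · intro hk'
      exact absurd (mem_range.2 (by omega)) hk'

/-- **The power of the lowering operator from the inverses of the Lefschetz isomorphisms.** -/
theorem f_pow_of_inv (hR : OpAlg gr R) (h : DirectSum.IsInternal gr)
    (hbd : ∀ i, 2 * n + 1 ≤ i → gr i = ⊥) (hL : R 1 L) (hHL : HardLef gr n L)
    (hf : Val gr n L f) {r : ℕ} (hi : ∀ c, r ≤ c → c ≤ n → ∀ t, IsInv gr n L c t → R (-c) t) :
    R (-r) (f ^ r) := by
  have hLh : IsHom gr 2 L := by simpa using hR.hom hL
  have hRL : ∀ m : ℕ, R m (L ^ m) := fun m => hR.cast (hR.pow hL m) (by ring)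
  have ht : ∀ c, ∃ t, c ≤ n → IsInv gr n L c t := by
    intro c
    by_cases hc : c ≤ n
    · obtain ⟨t, ht⟩ := exists_isInv h hLh hHL hc
      exact ⟨t, fun _ => ht⟩
    · exact ⟨0, fun h' => absurd h' hc⟩
  choose t ht using ht
  have hΓ : ∀ c, ∃ Γ, r ≤ c → c ≤ n → R 0 Γ ∧ ∀ k, c + 2 * k ≤ n → ∀ a ∈ gr (n - (c + 2 * k)),
      (L ^ (c + 2 * k + 1)) a = 0 →
        Γ ((L ^ k) a) = (gam (c + 2 * k) (c + k - r) r : K) • (L ^ k) a := by
    intro c
    by_cases hc : r ≤ c ∧ c ≤ n
    · obtain ⟨Γ, h1, h2⟩ := exists_diag hR h hL hHL hc.1 hi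
        (fun k => gam (c + 2 * k) (c + k - r) r)
      exact ⟨Γ, fun _ _ => ⟨h1, h2⟩⟩
    · exact ⟨0, fun h1 h2 => absurd ⟨h1, h2⟩ hc⟩
  have hΓ' : ∀ c, ∃ Γ, r ≤ c → c ≤ n → R 0 Γ ∧ ∀ k, c + 2 * k ≤ n → ∀ a ∈ gr (n - (c + 2 * k)),
      (L ^ (c + 2 * k + 1)) a = 0 →
        Γ ((L ^ k) a) = (gam (c + 2 * k) k r : K) • (L ^ k) a := by
    intro c
    by_cases hc : r ≤ c ∧ c ≤ n
    · obtain ⟨Γ, h1, h2⟩ := exists_diag hR h hL hHL hc.1 hi
        (fun k => gam (c + 2 * k) k r)
      exact ⟨Γ, fun _ _ => ⟨h1, h2⟩⟩
    · exact ⟨0, fun h1 h2 => absurd ⟨h1, h2⟩ hc⟩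
  choose Γ hΓ using hΓ
  choose Γ' hΓ' using hΓ'
  have hpp : ∀ (a b : ℕ) (x : V), (L ^ a) ((L ^ b) x) = (L ^ (a + b)) x := by
    intro a b x
    rw [pow_add, Module.End.mul_apply]
  have key : f ^ r = ∑ c ∈ Icc r n, L ^ (c - r) * (Γ c * t c) +
      ∑ c ∈ Icc (r + 1) n, Γ' c * (t c * L ^ (c - r)) := by
    apply LinearMap.ext
    intro x
    refine lef_induction' h hLh hbd hHL (p := fun x => (f ^ r) x =
      (∑ c ∈ Icc r n, L ^ (c - r) * (Γ c * t c) +
        ∑ c ∈ Icc (r + 1) n, Γ' c * (t c * L ^ (c - r))) x) ?_ ?_ x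
    · intro a b ha hb
      rw [map_add, map_add, ha, hb]
    · intro i hin a ha hp j
      -- the length of the string
      obtain ⟨m, rfl⟩ : ∃ m, n = i + m := ⟨n - i, by omega⟩
      rw [show i + m - i = m by omega] at hp
      have hmem : ∀ e, (L ^ e) a ∈ gr (i + 2 * e) := fun e => pow_L_mem hLh ha e
      have hzero : ∀ e, m < e → (L ^ e) a = 0 := by
        intro e he
        rw [show e = (e - (m + 1)) + (m + 1) by omega, ← hpp, hp, map_zero]
      by_cases hjm : m < j
      · rw [hzero j hjm, map_zero, map_zero]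
      have hjm : j ≤ m := by omega
      rw [LinearMap.add_apply, LinearMap.sum_apply, LinearMap.sum_apply]
      by_cases hw : m + r ≤ 2 * j
      · -- weight at least `r`
        have hc : 2 * j - m ≤ i + m := by omega
        have e0 : (f ^ r) ((L ^ j) a) = (gam m (j - r) r : K) • (L ^ (j - r)) a := by
          have := f_pow hf hin ha (by rwa [show i + m - i = m by omega]) (k := j - r) r
            (by omega)
          rwa [show j - r + r = j by omega, show i + m - i = m by omega] at this
        rw [e0, sum_eq_single (2 * j - m), sum_eq_zero, add_zero]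
        · simp only [Module.End.mul_apply]
          have e1 : (L ^ j) a = (L ^ (2 * j - m)) ((L ^ (m - j)) a) := by
            rw [hpp, show 2 * j - m + (m - j) = j by omega]
          have hm1 := hmem (m - j)
          rw [show i + 2 * (m - j) = i + m - (2 * j - m) by omega] at hm1
          rw [e1, (ht (2 * j - m) hc).1 _ hm1]
          have h3 := (hΓ (2 * j - m) (by omega) hc).2 (m - j) (by omega) a
            (by rwa [show i + m - (2 * j - m + 2 * (m - j)) = i by omega])
            (by rwa [show 2 * j - m + 2 * (m - j) + 1 = m + 1 by omega])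
          rw [h3, map_smul, hpp, show 2 * j - m + 2 * (m - j) = m by omega,
            show 2 * j - m + (m - j) - r = j - r by omega,
            show 2 * j - m - r + (m - j) = j - r by omega]
        · intro c hc'
          rw [mem_Icc] at hc'
          simp only [Module.End.mul_apply]
          rw [hpp, (ht c hc'.2).2 _ _ _ (hmem (c - r + j)), map_zero]
          omega
        · intro c hc' hne
          rw [mem_Icc] at hc'
          simp only [Module.End.mul_apply]
          rw [(ht c hc'.2).2 _ _ _ (hmem j), map_zero, map_zero]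
          omega
        · intro hc'
          exact absurd (mem_Icc.2 ⟨by omega, hc⟩) hc'
      · rw [sum_eq_zero (s := Icc r (i + m)), zero_add]
        · by_cases hcn : m + 2 * r - 2 * j ≤ i + m
          · rw [sum_eq_single (m + 2 * r - 2 * j)]
            · simp only [Module.End.mul_apply]
              by_cases hjr : r ≤ j
              · have e0 : (f ^ r) ((L ^ j) a) = (gam m (j - r) r : K) • (L ^ (j - r)) a := by
                  have := f_pow hf hin ha (by rwa [show i + m - i = m by omega]) (k := j - r) r
                    (by omega)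
                  rwa [show j - r + r = j by omega, show i + m - i = m by omega] at this
                have e1 : (L ^ (m + 2 * r - 2 * j - r)) ((L ^ j) a) =
                    (L ^ (m + 2 * r - 2 * j)) ((L ^ (j - r)) a) := by
                  rw [hpp, hpp, show m + 2 * r - 2 * j - r + j = m + 2 * r - 2 * j + (j - r) by
                    omega]
                have hm1 := hmem (j - r)
                rw [show i + 2 * (j - r) = i + m - (m + 2 * r - 2 * j) by omega] at hm1
                rw [e0, e1, (ht (m + 2 * r - 2 * j) hcn).1 _ hm1]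
                have h3 := (hΓ' (m + 2 * r - 2 * j) (by omega) hcn).2 (j - r) (by omega) a
                  (by rwa [show i + m - (m + 2 * r - 2 * j + 2 * (j - r)) = i by omega])
                  (by rwa [show m + 2 * r - 2 * j + 2 * (j - r) + 1 = m + 1 by omega])
                rw [h3, show m + 2 * r - 2 * j + 2 * (j - r) = m by omega]
              · have e0 : (f ^ r) ((L ^ j) a) = 0 :=
                  f_pow_zero hf hin ha (by rwa [show i + m - i = m by omega]) (by omega)
                    (by omega)
                rw [e0, hpp, hzero _ (by omega), map_zero, map_zero]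
            · intro c hc' hne
              rw [mem_Icc] at hc'
              simp only [Module.End.mul_apply]
              rw [hpp, (ht c hc'.2).2 _ _ _ (hmem (c - r + j)), map_zero]
              omega
            · intro hc'
              exact absurd (mem_Icc.2 ⟨by omega, hcn⟩) hc'
          · rw [sum_eq_zero]
            · exact f_pow_zero hf hin ha (by rwa [show i + m - i = m by omega]) (by omega)
                (by omega)
            · intro c hc'
              rw [mem_Icc] at hc'
              simp only [Module.End.mul_apply]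
              rw [hpp, (ht c hc'.2).2 _ _ _ (hmem (c - r + j)), map_zero]
              omega
        · intro c hc'
          rw [mem_Icc] at hc'
          simp only [Module.End.mul_apply]
          rw [(ht c hc'.2).2 _ _ _ (hmem j), map_zero, map_zero]
          omega
  rw [key]
  refine hR.add (hR.sum fun c hc => ?_) (hR.sum fun c hc => ?_)
  · rw [mem_Icc] at hc
    exact hR.cast (hR.mul (hRL (c - r)) (hR.mul (hΓ c hc.1 hc.2).1
      (hi c hc.1 hc.2 _ (ht c hc.2)))) (by omega)
  · rw [mem_Icc] at hc
    exact hR.cast (hR.mul (hΓ' c (by omega) hc.2).1 (hR.mul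
      (hi c (by omega) hc.2 _ (ht c hc.2)) (hRL (c - r)))) (by omega)

end Pool.Agent.Q82.OC
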