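import Pool.Agent.Q82.OC.Sym

/-!
# The Tate conjecture in one codimension on the square of a variety
-/

set_option autoImplicit false

open CategoryTheory AlgebraicGeometry Filter

universe u v

namespace Pool.Agent.Q82.OC

open Pool.Agent.H914 Pool.Agent.H447 Pool.Agent.W534 VarClass Obj WeilCohomology

section Abs

variable {K : Type*} [Field K] [CharZero K] {V : Type*} [AddCommGroup V] [Module K V]
variable {gr : ℕ → Submodule K V} {n : ℕ} {L : Module.End K V}
  {R T : ℤ → Module.End K V → Prop}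

/-- **The operators between two graded pieces.** -/
theorem Pair.pure (P : Pair gr n L R T) {r : ℕ} (hr : 1 ≤ r)
    (hN : ∀ u, T (-r) u → R (-r) u) {s : ℤ} {u : Module.End K V} (hu : T s u) {j j' : ℕ}
    (hjj : (j' : ℤ) = j + 2 * s) (hk : ∀ i, i ≠ j → ∀ a ∈ gr i, u a = 0)
    (hreg : 2 * (r : ℤ) ≤ |(j : ℤ) - n| + |(j' : ℤ) - n|) : R s u := by
  have hLh := P.L_hom
  have hRL : ∀ m : ℕ, R m (L ^ m) := fun m => P.hR.cast (P.hR.pow P.L_mem m) (by ring)
  by_cases hj : 2 * n < j
  · have : u = 0 := by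
      apply gr_ext P.int
      intro i a ha
      rw [LinearMap.zero_apply]
      by_cases hi : i = j
      · subst hi
        rw [P.bd i (by omega)] at ha
        rw [(Submodule.mem_bot _).1 ha, map_zero]
      · exact hk i hi a ha
    rw [this]
    exact P.hR.zero s
  by_cases hj' : 2 * n < j'
  · have : u = 0 := by
      apply gr_ext P.int
      intro i a ha
      rw [LinearMap.zero_apply]
      by_cases hi : i = j
      · subst hi
        have h1 := P.hT.hom hu i a (by rwa [grZ_natCast])
        rw [show (i : ℤ) + 2 * s = (j' : ℤ) by omega, grZ_natCast, P.bd j' (by omega)] at h1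
        exact (Submodule.mem_bot _).1 h1
      · exact hk i hi a ha
    rw [this]
    exact P.hR.zero s
  -- the values
  have hval : ∀ x, u x ∈ gr j' := by
    intro x
    refine gr_induction P.int (p := fun x => u x ∈ gr j') ?_ ?_ x
    · intro i a ha
      by_cases hi : i = j
      · subst hi
        have h1 := P.hT.hom hu i a (by rwa [grZ_natCast])
        rwa [show (i : ℤ) + 2 * s = (j' : ℤ) by omega, grZ_natCast] at h1
      · rw [hk i hi a ha]
        exact Submodule.zero_mem _
    · intro a b ha hb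
      rw [map_add]
      exact Submodule.add_mem _ ha hb
  -- move the target below the middle
  obtain ⟨s₁, u₁, hu₁, hk₁, hval₁, hs₁, hback₁⟩ : ∃ (s₁ : ℤ) (u₁ : Module.End K V), T s₁ u₁ ∧
      (∀ i, i ≠ j → ∀ a ∈ gr i, u₁ a = 0) ∧ (n : ℤ) - |(j' : ℤ) - n| = j + 2 * s₁ ∧
      (s₁ ≤ s) ∧ (R s₁ u₁ → R s u) := by
    rcases le_or_gt j' n with h1 | h1
    · refine ⟨s, u, hu, hk, ?_, le_rfl, id⟩
      rw [abs_of_nonpos (by omega)]
      omega
    · obtain ⟨t, ht⟩ := exists_isInv P.int hLh P.HL (c := j' - n) (by omega)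
      refine ⟨s - (j' - n : ℕ), t * u, ?_, ?_, ?_, by omega, ?_⟩
      · exact P.hT.cast (P.hT.mul (P.inv _ (by omega) t ht) hu) (by ring)
      · intro i hi a ha
        rw [Module.End.mul_apply, hk i hi a ha, map_zero]
      · rw [abs_of_nonneg (by omega)]
        omega
      · intro h2
        have h3 : u = L ^ (j' - n) * (t * u) := by
          rw [← mul_assoc, P.proj_high (by omega) ht]
          apply LinearMap.ext
          intro x
          rw [Module.End.mul_apply, show n + (j' - n) = j' by omega, proj_same _ (hval x)]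
        rw [h3]
        exact P.hR.cast (P.hR.mul (hRL _) h2) (by omega)
  apply hback₁
  -- move the source above the middle
  rcases le_or_gt n j with h1 | h1
  · have h2 : s₁ = -((-s₁).toNat : ℤ) := by
      rw [abs_of_nonneg (by omega : (0 : ℤ) ≤ (j : ℤ) - n)] at hreg
      omega
    rw [h2] at hu₁ ⊢
    refine P.low hr hN ?_ hu₁
    rw [abs_of_nonneg (by omega : (0 : ℤ) ≤ (j : ℤ) - n)] at hreg
    omega
  · obtain ⟨t, ht⟩ := exists_isInv P.int hLh P.HL (c := n - j) (by omega)
    have h3 : T (s₁ - (n - j : ℕ)) (u₁ * t) :=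
      P.hT.cast (P.hT.mul hu₁ (P.inv _ (by omega) t ht)) (by ring)
    have h4 : u₁ = (u₁ * t) * L ^ (n - j) := by
      rw [mul_assoc, P.proj_low (by omega) ht]
      apply gr_ext P.int
      intro i a ha
      rw [Module.End.mul_apply, show n - (n - j) = j by omega]
      by_cases hi : i = j
      · subst hi
        rw [proj_same _ ha]
      · rw [hk₁ i hi a ha, proj_ne _ ha hi, map_zero]
    rw [h4]
    have h5 : s₁ - (n - j : ℕ) = -((-(s₁ - (n - j : ℕ))).toNat : ℤ) := by
      rw [abs_of_nonpos (by omega : (j : ℤ) - n ≤ 0)] at hreg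
      omega
    have h6 : R (s₁ - (n - j : ℕ)) (u₁ * t) := by
      rw [h5] at h3 ⊢
      refine P.low hr hN ?_ h3
      rw [abs_of_nonpos (by omega : (j : ℤ) - n ≤ 0)] at hreg
      omega
    exact P.hR.cast (P.hR.mul h6 (hRL _)) (by omega)

/-- The projectors are in the large algebra. -/
lemma Pair.proj_T (P : Pair gr n L R T) (j : ℕ) : T 0 (proj P.int j) := by
  have hLh := P.L_hom
  by_cases h2 : 2 * n < j
  · have : proj P.int j = 0 := by
      apply LinearMap.ext
      intro x
      have := proj_mem P.int j x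
      rw [P.bd j (by omega)] at this
      rw [(Submodule.mem_bot _).1 this, LinearMap.zero_apply]
    rw [this]
    exact P.hT.zero 0
  · have hTL : ∀ m : ℕ, T m (L ^ m) := fun m =>
      P.hT.cast (P.hT.pow (P.le P.L_mem) m) (by ring)
    rcases le_or_gt j n with h1 | h1
    · obtain ⟨t, ht⟩ := exists_isInv P.int hLh P.HL (c := n - j) (by omega)
      have h3 := P.proj_low (by omega) ht
      rw [show n - (n - j) = j by omega] at h3
      rw [← h3]
      exact P.hT.cast (P.hT.mul (P.inv _ (by omega) t ht) (hTL _)) (by ring)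
    · obtain ⟨t, ht⟩ := exists_isInv P.int hLh P.HL (c := j - n) (by omega)
      have h3 := P.proj_high (by omega) ht
      rw [show n + (j - n) = j by omega] at h3
      rw [← h3]
      exact P.hT.cast (P.hT.mul (hTL _) (P.inv _ (by omega) t ht)) (by ring)

end Abs

variable {k : Type u} [Field k] {𝒱 : VarClass k} {ops : CycleOps 𝒱}
  {W : WeilCohomology.{u, v} ops} {X : 𝒱.Obj} {ι : Type*} (S : SymX W X ι) {D : X.Cycles}

namespace SymX

theorem region (hD : X.IsCyc 1 D) (hHL : HardLefschetz W X D) {d : ℕ} (hd : d < X.dim)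
    (h : ∀ c, S.TateSq d c → c ∈ spanCycles W (X.prod X) d) {q : ℕ} {c : W.H (X.prod X)}
    (hc : S.TateSq q c) {j j' : ℕ} (hjj : j + 2 * q = j' + 2 * X.dim) (hk : ActsOnlyOn W X j c)
    (hreg : 2 * ((X.dim : ℤ) - d) ≤ |(X.dim : ℤ) - j| + |(X.dim : ℤ) - j'|) :
    c ∈ spanCycles W (X.prod X) q := by
  apply span_of_kop
  refine (S.pair hD hHL).pure (r := X.dim - d) (by omega) (S.hyp hd h)
    ((S.op_iff hc.1).1 hc) (j := j) (j' := j') (by omega) hk ?_
  rw [abs_sub_comm (j : ℤ), abs_sub_comm (j' : ℤ)]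
  omega

/-- The Tate conjecture in one codimension in terms of Kunneth types. -/
theorem of_region (hD : X.IsCyc 1 D) (hHL : HardLefschetz W X D) {d : ℕ}
    (h : ∀ (c : W.H (X.prod X)) (j j' : ℕ), S.TateSq d c → j + 2 * d = j' + 2 * X.dim →
      ActsOnlyOn W X j c →
      2 * ((X.dim : ℤ) - d) ≤ |(X.dim : ℤ) - j| + |(X.dim : ℤ) - j'| →
      c ∈ spanCycles W (X.prod X) d) {c : W.H (X.prod X)} (hc : S.TateSq d c) :
    c ∈ spanCycles W (X.prod X) d := by
  have P := S.pair hD hHL
  have hu := (S.op_iff hc.1).1 hc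
  have hj : ∀ j, ∃ cj, W.corr cj = W.corr c * proj (W.isInternal X) j := fun j => exists_corr _
  choose cj hcj using hj
  have hop : ∀ j, S.Op ((d : ℤ) - X.dim) (W.corr (cj j)) := by
    intro j
    rw [hcj]
    exact P.hT.cast (P.hT.mul hu (P.proj_T j)) (by ring)
  have hgr : ∀ j, cj j ∈ W.gr (X.prod X) (2 * d) := fun j => mem_gr_of_isHom (hop j).1
  have hspan : ∀ j, cj j ∈ spanCycles W (X.prod X) d := by
    intro j
    have hact : ActsOnlyOn W X j (cj j) := by
      intro i hi a ha
      change W.corr (cj j) a = 0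
      rw [hcj, Module.End.mul_apply, proj_ne _ (show a ∈ W.gr X i from ha) hi, map_zero]
    by_cases hjd : 2 * X.dim ≤ j + 2 * d
    · refine h (cj j) j (j + 2 * d - 2 * X.dim) ((S.op_iff (hgr j)).2 (hop j)) (by omega) hact ?_
      have h1 : ((j + 2 * d - 2 * X.dim : ℕ) : ℤ) = j + 2 * d - 2 * X.dim := by omega
      rw [h1]
      have h2 := neg_abs_le ((X.dim : ℤ) - j)
      have h3 := le_abs_self ((X.dim : ℤ) - (j + 2 * d - 2 * X.dim))
      omega
    · have : cj j = 0 := by
        apply corr_inj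
        apply gr_ext (W.isInternal X)
        intro i a ha
        rw [LinearMap.zero_apply]
        by_cases hi : i = j
        · subst hi
          have h1 := (hop i).1 i a (by rwa [grZ_natCast])
          rw [grZ_of_neg (by omega)] at h1
          exact (Submodule.mem_bot _).1 h1
        · exact hact i hi a ha
      rw [this]
      exact Submodule.zero_mem _
  have hsum : c = ∑ j ∈ Finset.range (2 * X.dim + 1), cj j := by
    rw [← sub_eq_zero]
    apply corr_inj
    apply LinearMap.ext
    intro x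
    rw [corr_sub'', LinearMap.sub_apply, LinearMap.zero_apply]
    have h1 : W.corr (∑ j ∈ Finset.range (2 * X.dim + 1), cj j) x =
        ∑ j ∈ Finset.range (2 * X.dim + 1), W.corr (cj j) x := by
      have h2 : W.corr (∑ j ∈ Finset.range (2 * X.dim + 1), cj j) =
          ∑ j ∈ Finset.range (2 * X.dim + 1), W.corr (cj j) :=
        map_sum (corrLin W X X) cj (Finset.range (2 * X.dim + 1))
      rw [h2, LinearMap.sum_apply]
    have h3 : ∑ j ∈ Finset.range (2 * X.dim + 1), proj (W.isInternal X) j x = x := by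
      rw [← LinearMap.sum_apply, sum_proj (W.isInternal X) (fun i hi => W_hbd i hi)]
      rfl
    rw [h1]
    simp only [hcj, Module.End.mul_apply]
    rw [← map_sum, h3, sub_self]
  rw [hsum]
  exact Submodule.sum_mem _ fun j _ => hspan j

theorem range (hD : X.IsCyc 1 D) (hHL : HardLefschetz W X D) {d : ℕ} (hd : d < X.dim)
    (h : ∀ c, S.TateSq d c → c ∈ spanCycles W (X.prod X) d) {q : ℕ}
    (hq : q ≤ d ∨ 2 * X.dim - d ≤ q) {c : W.H (X.prod X)} (hc : S.TateSq q c) :
    c ∈ spanCycles W (X.prod X) q := by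
  apply span_of_kop
  have h1 := (S.op_iff hc.1).1 hc
  rcases hq with h2 | h2
  · rw [show (q : ℤ) - X.dim = -((X.dim - q : ℕ) : ℤ) by omega] at h1 ⊢
    exact (S.pair hD hHL).low (r := X.dim - d) (by omega) (S.hyp hd h) (by omega) h1
  · rw [show (q : ℤ) - X.dim = ((q - X.dim : ℕ) : ℤ) by omega] at h1 ⊢
    exact (S.pair hD hHL).high (r := X.dim - d) (by omega) (S.hyp hd h) (by omega) h1

/-- The classes of the inverses of the Lefschetz isomorphisms. -/
theorem inverse (hD : X.IsCyc 1 D) (hHL : HardLefschetz W X D) {d : ℕ} (hd : d < X.dim)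
    (h : ∀ c, S.TateSq d c → c ∈ spanCycles W (X.prod X) d) {i : ℕ} (hi : i ≤ d)
    {τ : W.H (X.prod X)} (hτ : IsInverseClass W X D (X.dim - i) τ) :
    τ ∈ spanCycles W (X.prod X) i := by
  apply span_of_kop
  have := (S.pair hD hHL).inv_mem (r := X.dim - d) (by omega) (S.hyp hd h) (X.dim - i) (by omega)
    (by omega) _ hτ.2
  rwa [show -((X.dim - i : ℕ) : ℤ) = (i : ℤ) - X.dim by omega] at this

/-- The variety itself. -/
theorem self (hD : X.IsCyc 1 D) (hHL : HardLefschetz W X D) {d : ℕ} (hd : d < X.dim)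
    (h : ∀ c, S.TateSq d c → c ∈ spanCycles W (X.prod X) d) {q : ℕ}
    (hq : q ≤ d ∨ X.dim - d ≤ q) {c : W.H X} (hc : S.Tate q c) : c ∈ spanCycles W X q := by
  rcases hq with h1 | h1
  · have h2 : S.TateSq q (W.map (Obj.fst X X) c) := by
      refine ⟨W.map_mem _ hc.1, ?_⟩
      filter_upwards [hc.2] with g hg
      rw [S.fst, hg, map_smul]
    have h3 := (spanFam W).map (diag X) (S.range hD hHL hd h (Or.inl h1) h2)
    rw [← W.map_comp, show diag X ≫ Obj.fst X X = 𝟙 X from Obj.lift_fst _ _, W.map_id] at h3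
    exact h3
  · have h2 : S.Op (q : ℤ) (LinearMap.mulLeft W.K c) := by
      constructor
      · intro i a ha
        by_cases h0 : 0 ≤ i
        · lift i to ℕ using h0
          rw [grZ_natCast] at ha
          rw [show (i : ℤ) + 2 * (q : ℤ) = ((2 * q + i : ℕ) : ℤ) by push_cast; ring, grZ_natCast]
          exact W.mul_mem hc.1 ha
        · rw [grZ_of_neg (by omega)] at ha
          rw [(Submodule.mem_bot _).1 ha, map_zero]
          exact Submodule.zero_mem _
      · filter_upwards [hc.2] with g hg x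
        rw [LinearMap.mulLeft_apply, LinearMap.mulLeft_apply, AlgHom.toLinearMap_apply,
          AlgHom.toLinearMap_apply, map_mul, hg, smul_mul_assoc, zpow_natCast]
    have h3 := (S.pair hD hHL).high (r := X.dim - d) (by omega) (S.hyp hd h) (by omega) h2
    obtain ⟨γ, hγ, h4⟩ := mem_KOp_iff.1 h3
    have h5 : c = W.push (Obj.snd X X) γ := by
      have h6 := LinearMap.congr_fun h4 1
      rw [LinearMap.mulLeft_apply, mul_one, corr_apply, map_one, mul_one] at h6
      exact h6.symm
    rw [h5]
    rw [show (X.dim : ℤ) + (q : ℤ) = ((X.dim + q : ℕ) : ℤ) by push_cast; ring] at hγ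
    exact (spanFam W).push (Obj.snd X X) hγ (by rw [dim_prod]; ring)

end SymX

end Pool.Agent.Q82.OC
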