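import Pool.Agent.Q82.OC.Abs
import Pool.Agent.H447R3.NumB
import Pool.Agent.W534.FamB
import Pool.Agent.Q82.OC.Defs

/-!
# Compatible systems of automorphisms of the cohomology of a variety and of its square
-/

set_option autoImplicit false

open CategoryTheory AlgebraicGeometry Filter

universe u v

namespace Pool.Agent.Q82.OC

open Pool.Agent.H914 Pool.Agent.H447 Pool.Agent.W534 VarClass Obj WeilCohomology

section Op

set_option linter.unusedSectionVars false

variable {K : Type*} [Field K] [CharZero K] {V : Type*} [AddCommGroup V] [Module K V]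
variable {ι : Type*} {gr : ℕ → Submodule K V} {n : ℕ} {L : Module.End K V}
  {fil : Filter ι} {F : ι → Module.End K V} {χ : ι → K}

/-- The operators of degree `2 d` which are multiplied by `χ g ^ d` by the `F g`. -/
def TOp (gr : ℕ → Submodule K V) (fil : Filter ι) (F : ι → Module.End K V) (χ : ι → K) (d : ℤ)
    (φ : Module.End K V) : Prop :=
  IsHom gr (2 * d) φ ∧ ∀ᶠ g in fil, ∀ x, F g (φ x) = χ g ^ d • φ (F g x)

lemma TOp.ksmul (a : K) {d : ℤ} {φ : Module.End K V} (h : TOp gr fil F χ d φ) :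
    TOp gr fil F χ d (a • φ) := by
  refine ⟨h.1.smul a, ?_⟩
  filter_upwards [h.2] with g hg x
  rw [LinearMap.smul_apply, LinearMap.smul_apply, map_smul, hg, smul_comm]

lemma tOp_opAlg (hχ : ∀ g, χ g ≠ 0) : OpAlg gr (TOp gr fil F χ) where
  one := ⟨isHom_one, Eventually.of_forall fun g x => by simp⟩
  zero d := ⟨isHom_zero _, Eventually.of_forall fun g x => by simp⟩
  add := by
    rintro d y z ⟨h1, h2⟩ ⟨h3, h4⟩
    refine ⟨h1.add h3, ?_⟩
    filter_upwards [h2, h4] with g hg hg' x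
    rw [LinearMap.add_apply, LinearMap.add_apply, map_add, hg, hg', smul_add]
  smul q d y h := h.ksmul _
  mul := by
    rintro d e y z ⟨h1, h2⟩ ⟨h3, h4⟩
    refine ⟨?_, ?_⟩
    · have := h1.mul h3
      rwa [show 2 * d + 2 * e = 2 * (d + e) by ring] at this
    · filter_upwards [h2, h4] with g hg hg' x
      rw [Module.End.mul_apply, Module.End.mul_apply, hg, hg', map_smul, smul_smul,
        ← zpow_add₀ (hχ g)]
  hom h := h.1

/-- The inverses of the Lefschetz isomorphisms. -/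
lemma tOp_inv (hχ : ∀ g, χ g ≠ 0) (h : DirectSum.IsInternal gr)
    (hdeg : ∀ g i, ∀ a ∈ gr i, F g a ∈ gr i) (hL : TOp gr fil F χ 1 L) (hHL : HardLef gr n L)
    {c : ℕ} (hc : c ≤ n) {t : Module.End K V} (ht : IsInv gr n L c t) :
    TOp gr fil F χ (-c) t := by
  refine ⟨ht.isHom h hHL hc, ?_⟩
  filter_upwards [hL.2] with g hg x
  have hLc : ∀ (m : ℕ) (y : V), F g ((L ^ m) y) = χ g ^ m • (L ^ m) (F g y) := by
    intro m
    induction m with
    | zero => intro y; simp
    | succ m ih =>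
      intro y
      rw [pow_succ L, Module.End.mul_apply, Module.End.mul_apply, ih, hg, zpow_one, map_smul,
        smul_smul, ← pow_succ]
  refine gr_induction h (p := fun x => F g (t x) = χ g ^ (-(c : ℤ)) • t (F g x)) ?_ ?_ x
  · intro i a ha
    by_cases hi : i = n + c
    · subst hi
      obtain ⟨y, hy, rfl⟩ := surj_pow hHL hc ha
      rw [ht.1 y hy, hLc, map_smul, ht.1 _ (hdeg g _ y hy), smul_smul, ← zpow_natCast,
        ← zpow_add₀ (hχ g), neg_add_cancel, zpow_zero, one_smul]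
    · rw [inv_kill ht hi ha, inv_kill ht hi (hdeg g i a ha), map_zero, smul_zero]
  · intro a b ha hb
    rw [map_add, map_add, map_add, map_add, smul_add, ha, hb]

end Op

variable {k : Type u} [Field k] {𝒱 : VarClass k} {ops : CycleOps 𝒱}

/-- Endomorphisms `F g` of the cohomology algebra of `X` and `G g` of the cohomology algebra of
`X × X`, with the formal properties of Frobenius or Galois actions. -/
structure SymX (W : WeilCohomology.{u, v} ops) (X : 𝒱.Obj) (ι : Type*) where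
  fil : Filter ι
  F : ι → (W.H X →ₐ[W.K] W.H X)
  G : ι → (W.H (X.prod X) →ₐ[W.K] W.H (X.prod X))
  χ : ι → W.K
  ne : ∀ g, χ g ≠ 0
  surj : ∀ g, Function.Surjective (F g)
  degF : ∀ g i, ∀ a ∈ W.gr X i, F g a ∈ W.gr X i
  trF : ∀ g x, W.tr X (F g x) = χ g ^ X.dim * W.tr X x
  trG : ∀ g x, W.tr (X.prod X) (G g x) = χ g ^ (X.dim + X.dim) * W.tr (X.prod X) x
  fst : ∀ g x, G g (W.map (fst X X) x) = W.map (fst X X) (F g x)
  snd : ∀ g x, G g (W.map (snd X X) x) = W.map (snd X X) (F g x)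
  cyc : ∀ {j z}, (X.prod X).IsCyc j z → ∀ᶠ g in fil, G g (W.cl _ z) = χ g ^ j • W.cl _ z

variable {W : WeilCohomology.{u, v} ops} {X : 𝒱.Obj} {ι : Type*} (S : SymX W X ι)

namespace SymX

/-- The Tate classes on the square. -/
def TateSq (j : ℕ) (c : W.H (X.prod X)) : Prop :=
  c ∈ W.gr (X.prod X) (2 * j) ∧ ∀ᶠ g in S.fil, S.G g c = S.χ g ^ j • c

/-- The Tate classes on `X`. -/
def Tate (j : ℕ) (c : W.H X) : Prop :=
  c ∈ W.gr X (2 * j) ∧ ∀ᶠ g in S.fil, S.F g c = S.χ g ^ j • c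

/-- The operators. -/
abbrev Op (d : ℤ) (φ : Module.End W.K (W.H X)) : Prop :=
  TOp (W.gr X) S.fil (fun g => (S.F g).toLinearMap) S.χ d φ

lemma corr_act (g : ι) (c : W.H (X.prod X)) (x : W.H X) :
    W.corr (S.G g c) (S.F g x) = S.χ g ^ X.dim • S.F g (W.corr c x) := by
  apply W.tr_ext
  intro y'
  obtain ⟨y, rfl⟩ := S.surj g y'
  have h1 := S.trG g (c * W.map (Obj.fst X X) x * W.map (Obj.snd X X) y)
  have h2 := S.trF g (W.corr c x * y)
  rw [map_mul (S.G g), map_mul (S.G g), S.fst, S.snd] at h1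
  rw [map_mul (S.F g)] at h2
  rw [corr_apply, W.tr_push, h1, smul_mul_assoc, map_smul, smul_eq_mul, h2, corr_apply,
    W.tr_push, pow_add]
  ring

lemma op_iff {j : ℕ} {c : W.H (X.prod X)} (hc : c ∈ W.gr (X.prod X) (2 * j)) :
    S.TateSq j c ↔ S.Op ((j : ℤ) - X.dim) (W.corr c) := by
  have key : ∀ g, S.G g c = S.χ g ^ j • c ↔
      ∀ x, S.F g (W.corr c x) = S.χ g ^ ((j : ℤ) - X.dim) • W.corr c (S.F g x) := by
    intro g
    have hz : S.χ g ^ j = S.χ g ^ X.dim * S.χ g ^ ((j : ℤ) - X.dim) := by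
      rw [← zpow_natCast, ← zpow_natCast, ← zpow_add₀ (S.ne g)]
      congr 1
      ring
    constructor
    · intro h x
      have h1 := S.corr_act g c x
      rw [h, corr_smul, LinearMap.smul_apply, hz, mul_smul] at h1
      exact (smul_right_injective _ (pow_ne_zero _ (S.ne g)) h1).symm
    · intro h
      rw [← sub_eq_zero]
      apply corr_inj
      apply LinearMap.ext
      intro x'
      obtain ⟨x, rfl⟩ := S.surj g x'
      rw [corr_sub'', LinearMap.sub_apply, S.corr_act, corr_smul, LinearMap.smul_apply, h, hz,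
        mul_smul, sub_self, LinearMap.zero_apply]
  constructor
  · rintro ⟨_, h⟩
    exact ⟨W.corr_isHom hc, h.mono fun g hg => (key g).1 hg⟩
  · rintro ⟨_, h⟩
    exact ⟨hc, h.mono fun g hg => (key g).2 hg⟩

lemma kop_le {d : ℤ} {φ : Module.End W.K (W.H X)} (h : φ ∈ KOp W X X d) : S.Op d φ := by
  induction h using Submodule.span_induction with
  | mem x hx =>
    obtain ⟨q, hq, z, hz, rfl⟩ := hx
    obtain rfl : d = (q : ℤ) - X.dim := by omega
    exact (S.op_iff (W.cl_mem hz)).1 ⟨W.cl_mem hz, S.cyc hz⟩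
  | zero => exact (tOp_opAlg S.ne).zero d
  | add x y _ _ hx hy => exact (tOp_opAlg S.ne).add hx hy
  | smul a x _ hx => exact hx.ksmul a

lemma kop_opAlg (W : WeilCohomology.{u, v} ops) (X : 𝒱.Obj) :
    OpAlg (W.gr X) (fun d y => y ∈ KOp W X X d) := by
  have h := (rop_opAlg (W := W) (X := X)).kspan
  have e : (fun (d : ℤ) (y : Module.End W.K (W.H X)) => y ∈ KS (ROp W X) d) =
      fun d y => y ∈ KOp W X X d := by
    funext d y
    exact propext mem_KS_iff
  rwa [e] at h

variable {D : X.Cycles}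

/-- The pair of algebras. -/
theorem pair (hD : X.IsCyc 1 D) (hHL : HardLefschetz W X D) :
    Pair (W.gr X) X.dim (LinearMap.mulLeft W.K (W.cl X D)) (fun d y => y ∈ KOp W X X d) S.Op where
  hR := kop_opAlg W X
  hT := tOp_opAlg S.ne
  le h := S.kop_le h
  int := W.isInternal X
  bd := W_hbd
  L_mem := kop_L hD
  HL := hHL
  inv _ hc _ ht := tOp_inv S.ne (W.isInternal X) (fun g i a ha => S.degF g i a ha)
    (S.kop_le (kop_L hD)) hHL hc ht

lemma span_of_kop {q : ℕ} {c : W.H (X.prod X)} (h : W.corr c ∈ KOp W X X ((q : ℤ) - X.dim)) :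
    c ∈ spanCycles W (X.prod X) q := by
  obtain ⟨γ, hγ, h1⟩ := mem_KOp_iff.1 h
  rw [show (X.dim : ℤ) + ((q : ℤ) - X.dim) = q by ring] at hγ
  have : γ - c = 0 := by
    apply corr_inj
    rw [corr_sub'', h1, sub_self]
  rwa [← sub_eq_zero.1 this]

/-- The hypothesis in terms of operators. -/
lemma hyp {d : ℕ} (hd : d < X.dim) (h : ∀ c, S.TateSq d c → c ∈ spanCycles W (X.prod X) d) :
    ∀ u, S.Op (-((X.dim - d : ℕ) : ℤ)) u → u ∈ KOp W X X (-((X.dim - d : ℕ) : ℤ)) := by
  intro u hu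
  obtain ⟨c, rfl⟩ := exists_corr u
  have e : -((X.dim - d : ℕ) : ℤ) = (d : ℤ) - X.dim := by omega
  rw [e] at hu ⊢
  have hc : c ∈ W.gr (X.prod X) (2 * d) := mem_gr_of_isHom hu.1
  refine mem_KOp_iff.2 ⟨c, ?_, rfl⟩
  rw [show (X.dim : ℤ) + ((d : ℤ) - X.dim) = d by ring]
  exact h c ((S.op_iff hc).2 hu)

end SymX

end Pool.Agent.Q82.OC
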